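import Pool.Agent.RSG.Defs

set_option autoImplicit false

/-!
# Module AS: almost sure convergence from summable second moments

`∫⁻ ∑_{j ≥ J} Y_j^2 = ∑_{j ≥ J} ∫⁻ Y_j^2 < ∞` (`lintegral_tsum`), so a.s. `∑ Y_j^2 < ∞` (`ae_lt_top`) and `Y_j → 0`
(`ENNReal.tendsto_atTop_zero_of_tsum_ne_top`).
-/

open Filter Topology MeasureTheory ProbabilityTheory

namespace Pool.Agent.RSG

variable {Ω : Type*} [MeasurableSpace Ω] {μ : Measure Ω} [IsProbabilityMeasure μ]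

theorem ae_tendsto_zero {Y : ℕ → Ω → ℝ} (hY : ∀ j, Measurable (Y j))
    (hb : ∀ j, ∃ C : ℝ, ∀ ω, |Y j ω| ≤ C) {c : ℕ → ℝ} (hc : Summable c)
    (h : ∀ᶠ j in atTop, ∫ ω, (Y j ω) ^ 2 ∂μ ≤ c j) :
    ∀ᵐ ω ∂μ, Tendsto (fun j => Y j ω) atTop (𝓝 0) := by
  obtain ⟨J, hJ⟩ := eventually_atTop.1 h
  have hint : ∀ j, Integrable (fun ω => (Y j ω) ^ 2) μ := by
    intro j
    obtain ⟨C, hC⟩ := hb j
    refine Integrable.of_bound ((hY j).pow_const 2).aestronglyMeasurable (C ^ 2)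
      (ae_of_all _ fun ω => ?_)
    rw [Real.norm_eq_abs, abs_pow]
    exact pow_le_pow_left₀ (abs_nonneg _) (hC ω) 2
  have h1 : ∀ j, ∫⁻ ω, ENNReal.ofReal ((Y (j + J) ω) ^ 2) ∂μ ≤ ENNReal.ofReal (c (j + J)) := by
    intro j
    rw [← ofReal_integral_eq_lintegral_ofReal (hint _) (ae_of_all _ fun ω => sq_nonneg _)]
    exact ENNReal.ofReal_le_ofReal (hJ _ (Nat.le_add_left _ _))
  have hc0 : ∀ j, 0 ≤ c (j + J) := fun j =>
    (integral_nonneg fun ω => sq_nonneg _).trans (hJ _ (Nat.le_add_left _ _))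
  have hcs : Summable fun j => c (j + J) := (summable_nat_add_iff J).2 hc
  have hm1 : ∀ j, Measurable fun ω => ENNReal.ofReal ((Y (j + J) ω) ^ 2) := fun j =>
    ((hY _).pow_const 2).ennreal_ofReal
  have h2 : ∫⁻ ω, ∑' j, ENNReal.ofReal ((Y (j + J) ω) ^ 2) ∂μ ≠ ⊤ := by
    rw [lintegral_tsum fun j => (hm1 j).aemeasurable]
    refine ne_top_of_le_ne_top ?_ (ENNReal.tsum_le_tsum h1)
    rw [← ENNReal.ofReal_tsum_of_nonneg hc0 hcs]
    exact ENNReal.ofReal_ne_top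
  have hm : Measurable fun ω => ∑' j, ENNReal.ofReal ((Y (j + J) ω) ^ 2) :=
    Measurable.tsum hm1
  filter_upwards [ae_lt_top hm h2] with ω hω
  have h3 := ENNReal.tendsto_atTop_zero_of_tsum_ne_top hω.ne
  have h4 : Tendsto (fun j => (Y (j + J) ω) ^ 2) atTop (𝓝 0) := by
    have h5 := (ENNReal.tendsto_toReal ENNReal.zero_ne_top).comp h3
    rw [ENNReal.toReal_zero] at h5
    refine h5.congr fun j => ?_
    exact ENNReal.toReal_ofReal (sq_nonneg _)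
  have h5 : Tendsto (fun j => Y (j + J) ω) atTop (𝓝 0) := by
    have h6 := (Real.continuous_sqrt.tendsto 0).comp h4
    rw [Real.sqrt_zero] at h6
    rw [tendsto_zero_iff_abs_tendsto_zero]
    refine h6.congr fun j => ?_
    exact Real.sqrt_sq_eq_abs _
  exact (tendsto_add_atTop_iff_nat J).1 h5

end Pool.Agent.RSG
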