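import Pool.Agent.RSG.Defs

set_option autoImplicit false

/-!
# Module WTK: weighted Turán–Kubilius

Copy the proof of `Pool.Agent.MRG.tk` (file `Pool/Agent/MRG/TK.lean`, with `TKAux.count`, `TKAux.pair_count`) and put the weights
`w p ∈ [0,1]` in: `L = ∑ w p/ab p ^2`, `A = ∑ w p/ab p`, `A^2 ≤ (∑ w p) L ≤ |S| L ≤ 9 r L`; on the diagonal `w p ^ 2 ≤ w p`.
`wtk'` is the form for finite sets of `P1`, with `z = √r` (`nm p = ab p ^ 2 ≤ r`), for `1 ≤ r` (`nm_eq_ab`).
-/

open Filter Topology MeasureTheory ProbabilityTheory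

namespace Pool.Agent.RSG

open Pool.Agent.GaussPret Pool.Agent.MRG

open TKAux

open scoped Classical in
theorem wtk : ∃ C : ℝ, 0 < C ∧ ∀ (z r : ℝ) (S : Finset GaussianInt) (w : GaussianInt → ℝ),
    1 ≤ z → z ^ 2 ≤ r → S ⊆ pr 1 z → (∀ p ∈ S, 0 ≤ w p ∧ w p ≤ 1) →
    ∑ n ∈ ball r, ((∑ p ∈ S, if p ∣ n then w p else 0) - ∑ p ∈ S, w p / ab p ^ 2) ^ 2 ≤
      C * r ^ 2 * (∑ p ∈ S, w p / ab p ^ 2 + 1) := by
  obtain ⟨K, hK, hball⟩ := card_ball_asymp
  have hpi := Real.pi_pos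
  refine ⟨Real.pi + 82 * K, by positivity, fun z r S w hz hzr hS hw => ?_⟩
  have hr : 1 ≤ r := by nlinarith
  have hr0 : 0 < r := by linarith
  set L := ∑ p ∈ S, w p / ab p ^ 2 with hL
  set A := ∑ p ∈ S, w p * (1 / ab p) with hA
  have hom : ∀ n, (∑ p ∈ S, if p ∣ n then w p else 0) =
      ∑ p ∈ S, w p * (if p ∣ n then (1 : ℝ) else 0) := by
    intro n
    refine Finset.sum_congr rfl fun p _ => ?_
    split_ifs <;> simp
  simp only [hom]
  set om' : GaussianInt → ℝ := fun n => ∑ p ∈ S, w p * (if p ∣ n then (1 : ℝ) else 0) with hom'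
  have hL' : L = ∑ p ∈ S, w p * (1 / ab p) ^ 2 := by
    rw [hL]
    refine Finset.sum_congr rfl fun p _ => ?_
    rw [one_div_pow, mul_one_div]
  have hmem : ∀ p ∈ S, 1 < ab p := fun p hp => (mem_pr.1 (hS hp)).2.1
  have hL0 : 0 ≤ L := by
    rw [hL']
    exact Finset.sum_nonneg fun p hp => mul_nonneg (hw p hp).1 (sq_nonneg _)
  have hA0 : 0 ≤ A := Finset.sum_nonneg fun p hp => by
    have := hmem p hp
    have h1 := (hw p hp).1
    positivity
  have hLA : L ≤ A := by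
    rw [hL']
    refine Finset.sum_le_sum fun p hp => mul_le_mul_of_nonneg_left ?_ (hw p hp).1
    have h1 := hmem p hp
    have h2 : 1 / ab p ≤ 1 := by
      rw [div_le_one (by linarith)]
      exact h1.le
    have h3 : 0 ≤ 1 / ab p := by positivity
    nlinarith
  have hcard : (S.card : ℝ) ≤ 9 * r := by
    have h1 : S ⊆ ball z := by
      intro p hp
      have h := mem_pr.1 (hS hp)
      exact mem_ball'.2 ⟨h.1.1.ne_zero, h.2.2⟩
    have h2 : (S.card : ℝ) ≤ (ball z).card := by exact_mod_cast Finset.card_le_card h1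
    have h3 := card_ball_le' z
    nlinarith
  have hww : ∀ p ∈ S, w p * w p ≤ w p := fun p hp => by
    have := hw p hp
    nlinarith
  have hA2 : A ^ 2 ≤ 9 * r * L := by
    have h1 : A ^ 2 ≤ S.card * ∑ p ∈ S, (w p * (1 / ab p)) ^ 2 := by
      rw [hA]
      exact sq_sum_le_card_mul_sum_sq
    have h2 : ∑ p ∈ S, (w p * (1 / ab p)) ^ 2 ≤ L := by
      rw [hL']
      refine Finset.sum_le_sum fun p hp => ?_
      rw [mul_pow, sq (w p)]
      exact mul_le_mul_of_nonneg_right (hww p hp) (sq_nonneg _)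
    calc A ^ 2 ≤ S.card * ∑ p ∈ S, (w p * (1 / ab p)) ^ 2 := h1
      _ ≤ S.card * L := mul_le_mul_of_nonneg_left h2 (Nat.cast_nonneg _)
      _ ≤ 9 * r * L := mul_le_mul_of_nonneg_right hcard hL0
  -- second moment
  have hsq : ∑ n ∈ ball r, om' n ^ 2 ≤
      Real.pi * r ^ 2 * L + 2 * K * r * A + Real.pi * r ^ 2 * L ^ 2 + 2 * K * r * A ^ 2 := by
    have e1 : ∑ n ∈ ball r, om' n ^ 2 = ∑ p ∈ S, ∑ q ∈ S, w p * w q * ∑ n ∈ ball r,
        (if p ∣ n then (1 : ℝ) else 0) * (if q ∣ n then (1 : ℝ) else 0) := by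
      have e2 : ∀ n ∈ ball r, om' n ^ 2 = ∑ p ∈ S, ∑ q ∈ S,
          w p * w q * ((if p ∣ n then (1 : ℝ) else 0) * (if q ∣ n then (1 : ℝ) else 0)) := by
        intro n _
        rw [sq, hom', Finset.sum_mul_sum]
        refine Finset.sum_congr rfl fun p _ => Finset.sum_congr rfl fun q _ => ?_
        ring
      rw [Finset.sum_congr rfl e2, Finset.sum_comm]
      refine Finset.sum_congr rfl fun p _ => ?_
      rw [Finset.sum_comm]
      refine Finset.sum_congr rfl fun q _ => ?_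
      rw [Finset.mul_sum]
    rw [e1]
    have h1 : ∑ p ∈ S, ∑ q ∈ S, w p * w q * ∑ n ∈ ball r,
        (if p ∣ n then (1 : ℝ) else 0) * (if q ∣ n then (1 : ℝ) else 0) ≤
        ∑ p ∈ S, ∑ q ∈ S, w p * w q *
        ((if p = q then (Real.pi * r ^ 2 * (1 / ab p) ^ 2 + 2 * K * r * (1 / ab p)) else 0) +
        (Real.pi * r ^ 2 * ((1 / ab p) ^ 2 * (1 / ab q) ^ 2) +
          2 * K * r * ((1 / ab p) * (1 / ab q)))) :=
      Finset.sum_le_sum fun p hp => Finset.sum_le_sum fun q hq =>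
        mul_le_mul_of_nonneg_left (pair_count hball hK hz hzr hS hp hq)
          (mul_nonneg (hw p hp).1 (hw q hq).1)
    refine h1.trans ?_
    have e3 : ∀ p ∈ S, ∑ q ∈ S, w p * w q *
        ((if p = q then (Real.pi * r ^ 2 * (1 / ab p) ^ 2 + 2 * K * r * (1 / ab p)) else 0) +
        (Real.pi * r ^ 2 * ((1 / ab p) ^ 2 * (1 / ab q) ^ 2) +
          2 * K * r * ((1 / ab p) * (1 / ab q)))) ≤
        (Real.pi * r ^ 2 * (w p * (1 / ab p) ^ 2) + 2 * K * r * (w p * (1 / ab p))) +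
        (Real.pi * r ^ 2 * ((w p * (1 / ab p) ^ 2) * L) +
          2 * K * r * ((w p * (1 / ab p)) * A)) := by
      intro p hp
      have e4 : ∀ q ∈ S, w p * w q *
        ((if p = q then (Real.pi * r ^ 2 * (1 / ab p) ^ 2 + 2 * K * r * (1 / ab p)) else 0) +
        (Real.pi * r ^ 2 * ((1 / ab p) ^ 2 * (1 / ab q) ^ 2) +
          2 * K * r * ((1 / ab p) * (1 / ab q)))) =
        (if p = q then w p * w q *
          (Real.pi * r ^ 2 * (1 / ab p) ^ 2 + 2 * K * r * (1 / ab p)) else 0) +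
        (Real.pi * r ^ 2 * (w p * (1 / ab p) ^ 2) * (w q * (1 / ab q) ^ 2) +
          2 * K * r * (w p * (1 / ab p)) * (w q * (1 / ab q))) := by
        intro q _
        split_ifs <;> ring
      rw [Finset.sum_congr rfl e4, Finset.sum_add_distrib, Finset.sum_ite_eq, if_pos hp,
        Finset.sum_add_distrib, ← Finset.mul_sum, ← Finset.mul_sum, ← hL', ← hA]
      have h5 : w p * w p * (Real.pi * r ^ 2 * (1 / ab p) ^ 2 + 2 * K * r * (1 / ab p)) ≤
          w p * (Real.pi * r ^ 2 * (1 / ab p) ^ 2 + 2 * K * r * (1 / ab p)) := by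
        refine mul_le_mul_of_nonneg_right (hww p hp) ?_
        have := hmem p hp
        positivity
      linarith
    refine (Finset.sum_le_sum e3).trans (le_of_eq ?_)
    rw [Finset.sum_add_distrib, Finset.sum_add_distrib,
      Finset.sum_add_distrib, ← Finset.mul_sum, ← Finset.mul_sum, ← Finset.mul_sum,
      ← Finset.mul_sum, ← Finset.sum_mul, ← Finset.sum_mul, ← hL', ← hA]
    ring
  -- first moment
  have hfirst : Real.pi * r ^ 2 * L - 2 * K * r * A ≤ ∑ n ∈ ball r, om' n := by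
    have e1 : ∑ n ∈ ball r, om' n =
        ∑ p ∈ S, w p * (((ball r).filter (fun n => p ∣ n)).card : ℝ) := by
      rw [hom', Finset.sum_comm]
      refine Finset.sum_congr rfl fun p _ => ?_
      rw [Finset.card_filter, ← Finset.mul_sum]
      push_cast
      rfl
    rw [e1]
    have h1 : ∑ p ∈ S, (Real.pi * r ^ 2 * (w p * (1 / ab p) ^ 2) -
        2 * K * r * (w p * (1 / ab p))) ≤
        ∑ p ∈ S, w p * (((ball r).filter (fun n => p ∣ n)).card : ℝ) := by
      refine Finset.sum_le_sum fun p hp => ?_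
      have hpm := mem_pr.1 (hS hp)
      have h2 := (abs_le.1 (count hball hK hr hpm.1.1.ne_zero (by nlinarith [hpm.2.2]))).1
      have h3 : Real.pi * r ^ 2 * (1 / ab p) ^ 2 - 2 * K * r * (1 / ab p) ≤
          (((ball r).filter (fun n => p ∣ n)).card : ℝ) := by linarith
      have h4 := mul_le_mul_of_nonneg_left h3 (hw p hp).1
      linarith
    rw [Finset.sum_sub_distrib, ← Finset.mul_sum, ← Finset.mul_sum, ← hL', ← hA] at h1
    exact h1
  have hcardr : ((ball r).card : ℝ) ≤ Real.pi * r ^ 2 + 2 * K * r := by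
    have := (abs_le.1 (hball r hr0.le)).2
    nlinarith
  have hexp : ∑ n ∈ ball r, (om' n - L) ^ 2 =
      ∑ n ∈ ball r, om' n ^ 2 - 2 * L * ∑ n ∈ ball r, om' n +
        L ^ 2 * (ball r).card := by
    have : ∀ n ∈ ball r, (om' n - L) ^ 2 =
        om' n ^ 2 - 2 * L * om' n + L ^ 2 := fun n _ => by ring
    rw [Finset.sum_congr rfl this, Finset.sum_add_distrib, Finset.sum_sub_distrib,
      ← Finset.mul_sum, Finset.sum_const, nsmul_eq_mul]
    ring
  show ∑ n ∈ ball r, (om' n - L) ^ 2 ≤ _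
  rw [hexp]
  have h1 : 2 * L * (Real.pi * r ^ 2 * L - 2 * K * r * A) ≤
      2 * L * ∑ n ∈ ball r, om' n := mul_le_mul_of_nonneg_left hfirst (by linarith)
  have h2 : L ^ 2 * ((ball r).card : ℝ) ≤ L ^ 2 * (Real.pi * r ^ 2 + 2 * K * r) :=
    mul_le_mul_of_nonneg_left hcardr (sq_nonneg _)
  have h3 : ∑ n ∈ ball r, om' n ^ 2 - 2 * L * ∑ n ∈ ball r, om' n +
        L ^ 2 * (ball r).card ≤
      Real.pi * r ^ 2 * L + 2 * K * r * (A + A ^ 2 + 2 * (A * L) + L ^ 2) := by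
    linarith
  refine h3.trans ?_
  have h4 : A + A ^ 2 + 2 * (A * L) + L ^ 2 ≤ A + 4 * A ^ 2 := by nlinarith
  have h5 : A ≤ (1 + A ^ 2) / 2 := by nlinarith [sq_nonneg (A - 1)]
  have h6 : A + 4 * A ^ 2 ≤ 1 / 2 * r + 9 / 2 * (9 * r * L) := by nlinarith
  have h7 : 2 * K * r * (A + A ^ 2 + 2 * (A * L) + L ^ 2) ≤
      2 * K * r * (1 / 2 * r + 9 / 2 * (9 * r * L)) :=
    mul_le_mul_of_nonneg_left (h4.trans h6) (by positivity)
  have h8 : 2 * K * r * (1 / 2 * r + 9 / 2 * (9 * r * L)) = K * r ^ 2 + 81 * (K * r ^ 2 * L) := by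
    ring
  have h9 : (0 : ℝ) ≤ K * r ^ 2 := by positivity
  have h10 : 0 ≤ K * r ^ 2 * L := mul_nonneg h9 hL0
  have h11 : (0 : ℝ) ≤ Real.pi * r ^ 2 := by positivity
  have h12 : (Real.pi + 82 * K) * r ^ 2 * (L + 1) =
      Real.pi * r ^ 2 * L + Real.pi * r ^ 2 + 82 * (K * r ^ 2 * L) + 82 * (K * r ^ 2) := by ring
  linarith

open scoped Classical in
theorem wtk' : ∃ C : ℝ, 0 < C ∧ ∀ (r : ℝ) (T : Finset P1) (w : P1 → ℝ),
    1 ≤ r → (∀ p ∈ T, nm (p : GaussianInt) ≤ r) → (∀ p ∈ T, 0 ≤ w p ∧ w p ≤ 1) →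
    ∑ n ∈ ball r, ((∑ p ∈ T, if (p : GaussianInt) ∣ n then w p else 0) -
        ∑ p ∈ T, w p / nm (p : GaussianInt)) ^ 2 ≤
      C * r ^ 2 * (∑ p ∈ T, w p / nm (p : GaussianInt) + 1) := by
  obtain ⟨C, hC, H⟩ := wtk
  refine ⟨C, hC, fun r T w hr hT hw => ?_⟩
  let w' : GaussianInt → ℝ := fun g =>
    if h : Prime g ∧ 0 < g.re ∧ 0 ≤ g.im then w ⟨g, h⟩ else 0
  have hw' : ∀ p : P1, w' (p : GaussianInt) = w p := by
    intro p
    simp only [w']
    rw [dif_pos p.2]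
  have hS : T.map (Function.Embedding.subtype _) ⊆ pr 1 (Real.sqrt r) := by
    intro g hg
    rw [Finset.mem_map] at hg
    obtain ⟨p, hp, rfl⟩ := hg
    refine mem_pr.2 ⟨p.2, one_lt_ab_prime p.2.1, Real.le_sqrt_of_sq_le ?_⟩
    have := hT p hp
    rwa [nm_eq_ab] at this
  have h1 := H (Real.sqrt r) r (T.map (Function.Embedding.subtype _)) w'
    (Real.one_le_sqrt.2 hr) (Real.sq_sqrt (by linarith)).le hS (by
      intro g hg
      rw [Finset.mem_map] at hg
      obtain ⟨p, hp, rfl⟩ := hg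
      rw [Function.Embedding.subtype_apply, hw']
      exact hw p hp)
  have e1 : ∑ p ∈ T.map (Function.Embedding.subtype _), w' p / ab p ^ 2 =
      ∑ p ∈ T, w p / nm (p : GaussianInt) := by
    rw [Finset.sum_map]
    refine Finset.sum_congr rfl fun p _ => ?_
    rw [Function.Embedding.subtype_apply, hw', nm_eq_ab]
  have e2 : ∀ n, (∑ p ∈ T.map (Function.Embedding.subtype _), if p ∣ n then w' p else 0) =
      ∑ p ∈ T, if (p : GaussianInt) ∣ n then w p else 0 := by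
    intro n
    rw [Finset.sum_map]
    refine Finset.sum_congr rfl fun p _ => ?_
    rw [Function.Embedding.subtype_apply, hw']
  simp only [e1, e2] at h1
  exact h1

end Pool.Agent.RSG
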