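import Pool.Agent.RSG.Cnt
import Pool.Agent.RSG.WTK

set_option autoImplicit false

/-!
# Module Det: the conditional mean is small

Let `δ p = 1 - |m p| ∈ [0,1]`, `y = (log r)^4`, `T = {p : y < nm p ≤ r}` (finite), `L = ∑_{p ∈ T} δ p/nm p = lsum δ r → ∞`.
Fix `h₁ ∈ S`, and let `r` be so large that `y ≥ 1` and `nm (h₁ - h) < y` for all `h ∈ S`.
For `n ∈ ball r` with `n + h₁ ≠ 0` and no `p` with `y < nm p`, `p^2 ∣ n + h₁`: every `p ∈ T` with `p ∣ n + h₁` lies in
`(WS S n).filter (y < nm ·)` (`mem_WS_of`), so the product is at most `∏_{p ∈ T, p ∣ n+h₁} (1 - δ p) ≤ exp (-a(n + h₁))`,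
`a(m) = ∑_{p ∈ T, p ∣ m} δ p`.
So the sum over `ball r` is at most
`1` (the `n` with `n + h₁ = 0`) `+ C r^2/y` (`card_sq`) `+ #{m ∈ ball (r + |h₁|) : a(m) ≤ L/2} + exp(-L/2) * #ball r`, and by `wtk'`
(radius `r + |h₁| ≥ r`) and Chebyshev the third term is at most `C (r + |h₁|)^2 (L + 1)/(L/2)^2`.  Divide by `r^2`, `r → ∞`.
-/

open Filter Topology MeasureTheory ProbabilityTheory

namespace Pool.Agent.RSG

open Pool.Agent.GaussPret Pool.Agent.MRG

theorem det_finT (r : ℝ) :
    {p : P1 | Real.log r ^ 4 < nm (p : GaussianInt) ∧ nm (p : GaussianInt) ≤ r}.Finite := by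
  have h1 : ((fun p : P1 => (p : GaussianInt)) ''
      {p : P1 | Real.log r ^ 4 < nm (p : GaussianInt) ∧ nm (p : GaussianInt) ≤ r}) ⊆
      {m : GaussianInt | ‖GaussianInt.toComplex m‖ ≤ |r| + 1} := by
    rintro z ⟨p, hp, rfl⟩
    obtain ⟨hp1, hp2⟩ := hp
    rw [nm_eq] at hp2
    show ‖GaussianInt.toComplex (p : GaussianInt)‖ ≤ |r| + 1
    have h3 : r ≤ |r| := le_abs_self r
    have h4 : 0 ≤ |r| := abs_nonneg r
    by_contra hcon
    push Not at hcon
    nlinarith [norm_nonneg (GaussianInt.toComplex (p : GaussianInt))]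
  exact Set.Finite.of_finite_image ((finite_ball (|r| + 1)).subset h1)
    (Subtype.val_injective.injOn)

/-- the primes with norm in `((log r)^4, r]`. -/
noncomputable def TT (r : ℝ) : Finset P1 := (det_finT r).toFinset

theorem mem_TT {r : ℝ} {p : P1} : p ∈ TT r ↔
    Real.log r ^ 4 < nm (p : GaussianInt) ∧ nm (p : GaussianInt) ≤ r := by
  simp [TT]

theorem lsum_eq (δ : P1 → ℝ) (r : ℝ) :
    lsum δ r = ∑ p ∈ TT r, δ p / nm (p : GaussianInt) := by
  rw [lsum, tsum_eq_sum (s := TT r)]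
  · apply Finset.sum_congr rfl
    intro p hp
    rw [if_pos (mem_TT.1 hp)]
  · intro p hp
    rw [if_neg (fun h => hp (mem_TT.2 h))]

open scoped Classical in
/-- the number of prime factors in `T`, weighted. -/
noncomputable def aT (δ : P1 → ℝ) (r : ℝ) (z : GaussianInt) : ℝ :=
  ∑ p ∈ TT r, if (p : GaussianInt) ∣ z then δ p else 0

open scoped Classical in
theorem prod_le_exp (m : P1 → ℝ) (hm : ∀ p, |m p| ≤ 1) {r : ℝ} {z : GaussianInt} {W : Finset P1}
    (hW : ∀ p ∈ TT r, (p : GaussianInt) ∣ z → p ∈ W) :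
    ∏ p ∈ W, |m p| ≤ Real.exp (-(aT (fun p => 1 - |m p|) r z)) := by
  have hsub : (TT r).filter (fun p : P1 => (p : GaussianInt) ∣ z) ⊆ W := by
    intro p hp
    rw [Finset.mem_filter] at hp
    exact hW p hp.1 hp.2
  rw [← Finset.prod_sdiff hsub]
  have h1 : ∏ p ∈ W \ (TT r).filter (fun p : P1 => (p : GaussianInt) ∣ z), |m p| ≤ 1 :=
    Finset.prod_le_one (fun p _ => abs_nonneg _) (fun p _ => hm p)
  have h2 : ∏ p ∈ (TT r).filter (fun p : P1 => (p : GaussianInt) ∣ z), |m p| ≤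
      Real.exp (-(aT (fun p => 1 - |m p|) r z)) := by
    have h3 : aT (fun p => 1 - |m p|) r z =
        ∑ p ∈ (TT r).filter (fun p : P1 => (p : GaussianInt) ∣ z), (1 - |m p|) := by
      rw [aT, Finset.sum_filter]
    rw [h3, ← Finset.sum_neg_distrib, Real.exp_sum]
    apply Finset.prod_le_prod
    · intro p _
      exact abs_nonneg _
    · intro p _
      have := Real.add_one_le_exp (-(1 - |m p|))
      linarith
  have h4 : 0 ≤ ∏ p ∈ (TT r).filter (fun p : P1 => (p : GaussianInt) ∣ z), |m p| :=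
    Finset.prod_nonneg (fun p _ => abs_nonneg _)
  calc _ ≤ 1 * ∏ p ∈ (TT r).filter (fun p : P1 => (p : GaussianInt) ∣ z), |m p| :=
        mul_le_mul_of_nonneg_right h1 h4
    _ ≤ _ := by rw [one_mul]; exact h2

open scoped Classical in
theorem card_small : ∃ C : ℝ, 0 < C ∧ ∀ (δ : P1 → ℝ) (r R : ℝ), (∀ p, 0 ≤ δ p ∧ δ p ≤ 1) →
    1 ≤ r → r ≤ R → 1 ≤ lsum δ r →
    (((ball R).filter (fun z => aT δ r z ≤ lsum δ r / 2)).card : ℝ) ≤ C * R ^ 2 / lsum δ r := by
  obtain ⟨C, hC, h⟩ := wtk'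
  refine ⟨8 * C, by positivity, ?_⟩
  intro δ r R hδ hr hR hL
  have h1 := h R (TT r) δ (hr.trans hR) (fun p hp => (mem_TT.1 hp).2.trans hR)
    (fun p _ => hδ p)
  rw [← lsum_eq] at h1
  set L := lsum δ r with hLdef
  have h2 : (((ball R).filter (fun z => aT δ r z ≤ L / 2)).card : ℝ) * (L / 2) ^ 2 ≤
      ∑ n ∈ ball R, ((∑ p ∈ TT r, if (p : GaussianInt) ∣ n then δ p else 0) - L) ^ 2 := by
    calc (((ball R).filter (fun z => aT δ r z ≤ L / 2)).card : ℝ) * (L / 2) ^ 2
        = ∑ n ∈ (ball R).filter (fun z => aT δ r z ≤ L / 2), (L / 2) ^ 2 := by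
          rw [Finset.sum_const, nsmul_eq_mul]
      _ ≤ ∑ n ∈ (ball R).filter (fun z => aT δ r z ≤ L / 2),
          ((∑ p ∈ TT r, if (p : GaussianInt) ∣ n then δ p else 0) - L) ^ 2 := by
          apply Finset.sum_le_sum
          intro n hn
          have hn2 := (Finset.mem_filter.1 hn).2
          rw [aT] at hn2
          nlinarith
      _ ≤ _ := by
          apply Finset.sum_le_sum_of_subset_of_nonneg (Finset.filter_subset _ _)
          intro n _ _
          positivity
  have h3 : L + 1 ≤ 2 * L := by linarith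
  have hL0 : 0 < L := by linarith
  rw [le_div_iff₀ hL0]
  have h4 : (((ball R).filter (fun z => aT δ r z ≤ L / 2)).card : ℝ) * (L / 2) ^ 2 ≤
      C * R ^ 2 * (2 * L) :=
    (h2.trans h1).trans (mul_le_mul_of_nonneg_left h3 (by positivity))
  have h5 : ((((ball R).filter (fun z => aT δ r z ≤ L / 2)).card : ℝ) * L) * (L / 4) ≤
      (8 * C * R ^ 2) * (L / 4) := by nlinarith
  exact le_of_mul_le_mul_right h5 (by positivity)

open scoped Classical in
theorem det_bound (m : P1 → ℝ) (hm : ∀ p, |m p| ≤ 1) {S : Finset GaussianInt} (hS : S.Nonempty) :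
    ∃ C r₀ : ℝ, 0 < C ∧ 1 ≤ r₀ ∧ ∀ r : ℝ, r₀ ≤ r → 1 ≤ lsum (fun p => 1 - |m p|) r →
      ∑ n ∈ ball r, ∏ p ∈ (WS S n).filter (fun p : P1 => Real.log r ^ 4 < nm (p : GaussianInt)),
        |m p| ≤
      1 + C * r ^ 2 / Real.log r ^ 4 + C * r ^ 2 / lsum (fun p => 1 - |m p|) r +
        9 * r ^ 2 * Real.exp (-(lsum (fun p => 1 - |m p|) r / 2)) := by
  obtain ⟨h₁, hh₁⟩ := hS
  obtain ⟨C1, hC1, hsq⟩ := card_sq h₁
  obtain ⟨C2, hC2, hsm⟩ := card_small
  set M : ℝ := ∑ h ∈ S, nm (h₁ - h) with hM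
  have hM0 : 0 ≤ M := Finset.sum_nonneg (fun h _ => nm_nonneg _)
  set K : ℝ := ‖GaussianInt.toComplex h₁‖ with hK
  have hK0 : 0 ≤ K := norm_nonneg _
  refine ⟨C1 + 4 * C2, max (Real.exp (M + 1)) (K + 1), by positivity,
    le_max_of_le_right (by linarith), ?_⟩
  intro r hr hL
  have hr1 : Real.exp (M + 1) ≤ r := (le_max_left _ _).trans hr
  have hr2 : K + 1 ≤ r := (le_max_right _ _).trans hr
  have hr3 : 1 ≤ r := by linarith
  have hlog : M + 1 ≤ Real.log r := by
    rw [Real.le_log_iff_exp_le (by linarith)]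
    exact hr1
  have hy1 : M + 1 ≤ Real.log r ^ 4 := by
    have h1 : 1 ≤ Real.log r := by linarith
    have h2 : Real.log r ≤ Real.log r ^ 4 := by
      calc Real.log r = Real.log r ^ 1 := (pow_one _).symm
        _ ≤ Real.log r ^ 4 := pow_le_pow_right₀ h1 (by norm_num)
    linarith
  have hy : 1 ≤ Real.log r ^ 4 := by linarith
  set y := Real.log r ^ 4 with hydef
  set δ : P1 → ℝ := fun p => 1 - |m p| with hδ
  have hδ01 : ∀ p, 0 ≤ δ p ∧ δ p ≤ 1 := by
    intro p
    have h1 := hm p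
    have h2 := abs_nonneg (m p)
    constructor
    · show 0 ≤ 1 - |m p|
      linarith
    · show 1 - |m p| ≤ 1
      linarith
  set L := lsum δ r with hLdef
  have hL0 : 0 < L := by linarith
  -- the three exceptional sets
  have hpt : ∀ n ∈ ball r, ∏ p ∈ (WS S n).filter (fun p : P1 => y < nm (p : GaussianInt)), |m p| ≤
      (if n + h₁ = 0 then 1 else 0) +
      (if (∃ p : P1, y < nm (p : GaussianInt) ∧ n + h₁ ≠ 0 ∧ (p : GaussianInt) ^ 2 ∣ n + h₁)
        then 1 else 0) +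
      (if (n + h₁ ≠ 0 ∧ aT δ r (n + h₁) ≤ L / 2) then 1 else 0) + Real.exp (-(L / 2)) := by
    intro n hn
    have hle1 : ∏ p ∈ (WS S n).filter (fun p : P1 => y < nm (p : GaussianInt)), |m p| ≤ 1 :=
      Finset.prod_le_one (fun p _ => abs_nonneg _) (fun p _ => hm p)
    have hexp : 0 < Real.exp (-(L / 2)) := Real.exp_pos _
    by_cases c1 : n + h₁ = 0
    · rw [if_pos c1]
      have h2 : (0 : ℝ) ≤ (if (∃ p : P1, y < nm (p : GaussianInt) ∧ n + h₁ ≠ 0 ∧
          (p : GaussianInt) ^ 2 ∣ n + h₁) then 1 else 0) := by split_ifs <;> norm_num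
      have h3 : (0 : ℝ) ≤ (if (n + h₁ ≠ 0 ∧ aT δ r (n + h₁) ≤ L / 2) then 1 else 0) := by
        split_ifs <;> norm_num
      linarith
    · rw [if_neg c1]
      by_cases c2 : ∃ p : P1, y < nm (p : GaussianInt) ∧ n + h₁ ≠ 0 ∧ (p : GaussianInt) ^ 2 ∣ n + h₁
      · rw [if_pos c2]
        have h3 : (0 : ℝ) ≤ (if (n + h₁ ≠ 0 ∧ aT δ r (n + h₁) ≤ L / 2) then 1 else 0) := by
          split_ifs <;> norm_num
        linarith
      · rw [if_neg c2]
        by_cases c3 : aT δ r (n + h₁) ≤ L / 2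
        · rw [if_pos ⟨c1, c3⟩]
          linarith
        · rw [if_neg (fun h => c3 h.2)]
          push Not at c3
          have h4 : ∏ p ∈ (WS S n).filter (fun p : P1 => y < nm (p : GaussianInt)), |m p| ≤
              Real.exp (-(aT δ r (n + h₁))) := by
            apply prod_le_exp m hm
            intro p hp hdvd
            have hpT := mem_TT.1 hp
            rw [Finset.mem_filter]
            refine ⟨?_, hpT.1⟩
            apply mem_WS_of hh₁ c1 hdvd
            · intro hsq2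
              exact c2 ⟨p, hpT.1, c1, hsq2⟩
            · intro h hh _
              have h5 : nm (h₁ - h) ≤ M :=
                Finset.single_le_sum (f := fun h => nm (h₁ - h)) (fun h _ => nm_nonneg _) hh
              have h6 : y < nm (p : GaussianInt) := hpT.1
              linarith
          have h7 : Real.exp (-(aT δ r (n + h₁))) ≤ Real.exp (-(L / 2)) :=
            Real.exp_le_exp.2 (by linarith)
          linarith
  have hsum := Finset.sum_le_sum hpt
  rw [Finset.sum_add_distrib, Finset.sum_add_distrib, Finset.sum_add_distrib] at hsum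
  -- first term
  have t1 : ∑ n ∈ ball r, (if n + h₁ = 0 then (1 : ℝ) else 0) ≤ 1 := by
    rw [← Finset.sum_filter, Finset.sum_const, nsmul_eq_mul, mul_one]
    have h1 : ((ball r).filter (fun n => n + h₁ = 0)).card ≤ 1 := by
      rw [Finset.card_le_one]
      intro a ha b hb
      have ha' := (Finset.mem_filter.1 ha).2
      have hb' := (Finset.mem_filter.1 hb).2
      rw [eq_neg_of_add_eq_zero_left ha', eq_neg_of_add_eq_zero_left hb']
    exact_mod_cast h1
  -- second term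
  have t2 : ∑ n ∈ ball r, (if (∃ p : P1, y < nm (p : GaussianInt) ∧ n + h₁ ≠ 0 ∧
      (p : GaussianInt) ^ 2 ∣ n + h₁) then (1 : ℝ) else 0) ≤ C1 * r ^ 2 / y := by
    rw [← Finset.sum_filter, Finset.sum_const, nsmul_eq_mul, mul_one]
    exact hsq r y hr3 hy
  -- third term
  have t3 : ∑ n ∈ ball r, (if (n + h₁ ≠ 0 ∧ aT δ r (n + h₁) ≤ L / 2) then (1 : ℝ) else 0) ≤
      4 * C2 * r ^ 2 / L := by
    rw [← Finset.sum_filter, Finset.sum_const, nsmul_eq_mul, mul_one]
    have h1 : ((ball r).filter (fun n => n + h₁ ≠ 0 ∧ aT δ r (n + h₁) ≤ L / 2)).card ≤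
        ((ball (r + K)).filter (fun z => aT δ r z ≤ L / 2)).card := by
      apply Finset.card_le_card_of_injOn (fun n => n + h₁)
      · intro n hn
        have hn' : n ∈ (ball r).filter (fun n => n + h₁ ≠ 0 ∧ aT δ r (n + h₁) ≤ L / 2) := hn
        rw [Finset.mem_filter, mem_ball] at hn'
        obtain ⟨⟨hn0, hn1⟩, hn2, hn3⟩ := hn'
        show n + h₁ ∈ (ball (r + K)).filter (fun z => aT δ r z ≤ L / 2)
        rw [Finset.mem_filter, mem_ball]
        refine ⟨⟨hn2, ?_⟩, hn3⟩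
        rw [map_add]
        exact (norm_add_le _ _).trans (add_le_add hn1 le_rfl)
      · intro a _ b _ hab
        exact add_right_cancel hab
    have h2 := hsm δ r (r + K) hδ01 hr3 (by linarith) hL
    have h3 : (((ball r).filter (fun n => n + h₁ ≠ 0 ∧ aT δ r (n + h₁) ≤ L / 2)).card : ℝ) ≤
        (((ball (r + K)).filter (fun z => aT δ r z ≤ L / 2)).card : ℝ) := by exact_mod_cast h1
    refine h3.trans (h2.trans ?_)
    apply div_le_div_of_nonneg_right _ hL0.le
    have h5 : (r + K) ^ 2 ≤ 4 * r ^ 2 := by nlinarith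
    calc C2 * (r + K) ^ 2 ≤ C2 * (4 * r ^ 2) := mul_le_mul_of_nonneg_left h5 hC2.le
      _ = 4 * C2 * r ^ 2 := by ring
  -- fourth term
  have t4 : ∑ n ∈ ball r, Real.exp (-(L / 2)) ≤ 9 * r ^ 2 * Real.exp (-(L / 2)) := by
    rw [Finset.sum_const, nsmul_eq_mul]
    exact mul_le_mul_of_nonneg_right (card_ball_le r) (Real.exp_pos _).le
  have hy0 : 0 < y := by linarith
  have u2 : C1 * r ^ 2 / y ≤ (C1 + 4 * C2) * r ^ 2 / y := by
    apply div_le_div_of_nonneg_right _ hy0.le
    apply mul_le_mul_of_nonneg_right _ (by positivity)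
    linarith
  have u3 : 4 * C2 * r ^ 2 / L ≤ (C1 + 4 * C2) * r ^ 2 / L := by
    apply div_le_div_of_nonneg_right _ hL0.le
    apply mul_le_mul_of_nonneg_right _ (by positivity)
    linarith
  linarith

open scoped Classical in
theorem det_part (m : P1 → ℝ) (hm : ∀ p, |m p| ≤ 1)
    (hdiv : Tendsto (lsum (fun p => 1 - |m p|)) atTop atTop)
    {S : Finset GaussianInt} (hS : S.Nonempty) :
    Tendsto (fun r : ℝ => (∑ n ∈ ball r,
      ∏ p ∈ (WS S n).filter (fun p : P1 => Real.log r ^ 4 < nm (p : GaussianInt)), |m p|) / r ^ 2)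
      atTop (𝓝 0) := by
  obtain ⟨C, r₀, hC, hr₀, h⟩ := det_bound m hm hS
  set L : ℝ → ℝ := lsum (fun p => 1 - |m p|) with hL
  have e1 : Tendsto (fun r : ℝ => 1 / r ^ 2) atTop (𝓝 0) := by
    simp only [one_div]
    exact (tendsto_pow_atTop (two_ne_zero)).inv_tendsto_atTop
  have e2 : Tendsto (fun r : ℝ => C / Real.log r ^ 4) atTop (𝓝 0) := by
    apply Tendsto.const_div_atTop
    exact (tendsto_pow_atTop (by norm_num : (4 : ℕ) ≠ 0)).comp Real.tendsto_log_atTop
  have e3 : Tendsto (fun r : ℝ => C / L r) atTop (𝓝 0) :=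
    Tendsto.const_div_atTop hdiv C
  have e4 : Tendsto (fun r : ℝ => 9 * Real.exp (-(L r / 2))) atTop (𝓝 0) := by
    have h1 : Tendsto (fun r : ℝ => Real.exp (-(L r / 2))) atTop (𝓝 0) := by
      apply Real.tendsto_exp_atBot.comp
      apply tendsto_neg_atTop_atBot.comp
      exact hdiv.atTop_div_const (by norm_num)
    simpa using h1.const_mul 9
  have e5 := ((e1.add e2).add e3).add e4
  simp only [add_zero] at e5
  refine squeeze_zero' ?_ ?_ e5
  · filter_upwards with r
    apply div_nonneg _ (by positivity)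
    exact Finset.sum_nonneg (fun n _ => Finset.prod_nonneg (fun p _ => abs_nonneg _))
  · filter_upwards [eventually_ge_atTop r₀, hdiv.eventually_ge_atTop 1] with r hr hr2
    have hr1 : 0 < r := by linarith
    have h1 := h r hr hr2
    rw [div_le_iff₀ (by positivity)]
    refine h1.trans (le_of_eq ?_)
    have hr3 : r ^ 2 ≠ 0 := by positivity
    rw [add_mul, add_mul, add_mul, div_mul_cancel₀ _ hr3]
    ring

end Pool.Agent.RSG
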