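import Pool.Agent.RSG.Defs

set_option autoImplicit false

/-!
# Module Interp: from the radii `exp (√j)` to all radii

For `r ≥ 1` let `j = ⌊(log r)^2⌋₊` and `ρ = exp (√j)`; then `ρ ≤ r`, `j → ∞` and `ρ / r → 1`
(`0 ≤ log r - √j ≤ √(j+1) - √j ≤ 1/√j`).  `|∑_{ball r} F| ≤ |∑_{ball ρ} F| + #ball r - #ball ρ`, and
`#ball r / r^2 → cD`, `#ball ρ / r^2 = (#ball ρ/ρ^2) (ρ/r)^2 → cD` (`hasMean_one`).
-/

open Filter Topology MeasureTheory ProbabilityTheory

namespace Pool.Agent.RSG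

open Pool.Agent.GaussPret Pool.Agent.MRG

/-- the difference of the sums over two discs. -/
private theorem interp_sub (F : GaussianInt → ℝ) (hF : ∀ n, |F n| ≤ 1) {ρ r : ℝ} (h : ρ ≤ r) :
    |∑ n ∈ ball r, F n| ≤ |∑ n ∈ ball ρ, F n| + (GaussPret.SS (fun _ => 1) r - GaussPret.SS (fun _ => 1) ρ) := by
  have hsub : ball ρ ⊆ ball r := by
    intro m hm
    rw [mem_ball] at hm ⊢
    exact ⟨hm.1, hm.2.trans h⟩
  have h1 : ∑ n ∈ ball r, F n = ∑ n ∈ ball ρ, F n + ∑ n ∈ ball r \ ball ρ, F n := by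
    rw [add_comm, Finset.sum_sdiff hsub]
  have h2 : |∑ n ∈ ball r \ ball ρ, F n| ≤ ∑ n ∈ ball r \ ball ρ, (1 : ℝ) :=
    (Finset.abs_sum_le_sum_abs _ _).trans (Finset.sum_le_sum fun n _ => hF n)
  have h3 : ∑ n ∈ ball r \ ball ρ, (1 : ℝ) = GaussPret.SS (fun _ => 1) r - GaussPret.SS (fun _ => 1) ρ := by
    unfold GaussPret.SS
    rw [← Finset.sum_sdiff hsub (f := fun _ => (1 : ℝ))]
    ring
  rw [h1]
  refine (abs_add_le _ _).trans ?_
  rw [← h3]
  linarith

theorem interp (F : GaussianInt → ℝ) (hF : ∀ n, |F n| ≤ 1)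
    (h : Tendsto (fun j : ℕ => (∑ n ∈ ball (Real.exp (Real.sqrt j)), F n) /
      (Real.exp (Real.sqrt j)) ^ 2) atTop (𝓝 0)) :
    Tendsto (fun r : ℝ => (∑ n ∈ ball r, F n) / r ^ 2) atTop (𝓝 0) := by
  obtain ⟨b, hb⟩ : ∃ b : ℝ → ℕ, b = fun r => ⌊Real.log r ^ 2⌋₊ := ⟨_, rfl⟩
  obtain ⟨ρ, hρ⟩ : ∃ ρ : ℝ → ℝ, ρ = fun r => Real.exp (Real.sqrt (b r)) := ⟨_, rfl⟩
  have hbt : Tendsto b atTop atTop := by
    rw [hb]
    exact tendsto_nat_floor_atTop.comp ((tendsto_pow_atTop two_ne_zero).comp Real.tendsto_log_atTop)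
  have hst : Tendsto (fun r => Real.sqrt (b r)) atTop atTop :=
    Real.tendsto_sqrt_atTop.comp (tendsto_natCast_atTop_atTop.comp hbt)
  have hρt : Tendsto ρ atTop atTop := by
    rw [hρ]
    exact Real.tendsto_exp_atTop.comp hst
  have h1 : Tendsto (fun r => (∑ n ∈ ball (ρ r), F n) / (ρ r) ^ 2) atTop (𝓝 0) := by
    rw [hρ]
    exact h.comp hbt
  have h3 : Tendsto (fun r : ℝ => GaussPret.SS (fun _ => 1) r / r ^ 2) atTop (𝓝 (cD * 1)) := hasMean_one
  have h2 : Tendsto (fun r => GaussPret.SS (fun _ => 1) (ρ r) / (ρ r) ^ 2) atTop (𝓝 (cD * 1)) := h3.comp hρt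
  have hle : ∀ᶠ r : ℝ in atTop, Real.sqrt (b r) ≤ Real.log r ∧
      Real.log r ≤ Real.sqrt (b r) + 1 / Real.sqrt (b r) := by
    filter_upwards [eventually_ge_atTop 1, hbt.eventually_ge_atTop 1] with r hr hb1
    have hl := Real.log_nonneg hr
    have hbR : (1 : ℝ) ≤ b r := by exact_mod_cast hb1
    have hs0 : 0 < Real.sqrt (b r) := Real.sqrt_pos.2 (by linarith)
    have e1 : (b r : ℝ) ≤ Real.log r ^ 2 := by
      rw [hb]
      exact Nat.floor_le (by positivity)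
    have e2 : Real.log r ^ 2 < b r + 1 := by
      rw [hb]
      exact Nat.lt_floor_add_one _
    constructor
    · rw [Real.sqrt_le_left hl]
      exact e1
    · have e3 : Real.log r ^ 2 ≤ (Real.sqrt (b r) + 1 / Real.sqrt (b r)) ^ 2 := by
        have e4 : (Real.sqrt (b r) + 1 / Real.sqrt (b r)) ^ 2 =
            Real.sqrt (b r) ^ 2 + 2 + (1 / Real.sqrt (b r)) ^ 2 := by
          field_simp
          ring
        rw [e4, Real.sq_sqrt (by linarith)]
        have : 0 ≤ (1 / Real.sqrt (b r)) ^ 2 := by positivity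
        linarith
      exact (sq_le_sq₀ hl (by positivity)).1 e3
  have h4 : Tendsto (fun r => ρ r / r) atTop (𝓝 1) := by
    have h5 : Tendsto (fun r => Real.sqrt (b r) - Real.log r) atTop (𝓝 0) := by
      have h6 : Tendsto (fun r => -(1 / Real.sqrt (b r))) atTop (𝓝 0) := by
        have := (tendsto_inv_atTop_zero.comp hst).neg
        rw [neg_zero] at this
        refine this.congr fun r => ?_
        simp
      refine tendsto_of_tendsto_of_tendsto_of_le_of_le' h6 tendsto_const_nhds ?_ ?_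
      · filter_upwards [hle] with r hr
        linarith [hr.2]
      · filter_upwards [hle] with r hr
        linarith [hr.1]
    have h7 := (Real.continuous_exp.tendsto 0).comp h5
    rw [Real.exp_zero] at h7
    refine h7.congr' ?_
    filter_upwards [eventually_gt_atTop 0] with r hr
    rw [Function.comp_apply, Real.exp_sub, Real.exp_log hr, hρ]
  -- the majorant
  have h8 : Tendsto (fun r => |(∑ n ∈ ball (ρ r), F n) / (ρ r) ^ 2| * (ρ r / r) ^ 2 +
      (GaussPret.SS (fun _ => 1) r / r ^ 2 - GaussPret.SS (fun _ => 1) (ρ r) / (ρ r) ^ 2 * (ρ r / r) ^ 2)) atTop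
      (𝓝 0) := by
    have := ((h1.abs).mul (h4.pow 2)).add (h3.sub (h2.mul (h4.pow 2)))
    have e0 : |(0 : ℝ)| * 1 ^ 2 + (cD * 1 - cD * 1 * 1 ^ 2) = 0 := by
      rw [abs_zero]
      ring
    rw [e0] at this
    exact this
  refine squeeze_zero_norm' ?_ h8
  filter_upwards [eventually_gt_atTop 0, hle, hρt.eventually_gt_atTop 0] with r hr0 hr hρ0
  have hρr : ρ r ≤ r := by
    rw [hρ]
    calc Real.exp (Real.sqrt (b r)) ≤ Real.exp (Real.log r) := Real.exp_le_exp.2 hr.1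
      _ = r := Real.exp_log hr0
  have h9 := interp_sub F hF hρr
  have hr2 : 0 < r ^ 2 := by positivity
  have hρ2 : 0 < ρ r ^ 2 := by positivity
  rw [Real.norm_eq_abs, abs_div, abs_of_pos hr2, abs_div, abs_of_pos hρ2]
  have e1 : |∑ n ∈ ball (ρ r), F n| / ρ r ^ 2 * (ρ r / r) ^ 2 +
      (GaussPret.SS (fun _ => 1) r / r ^ 2 - GaussPret.SS (fun _ => 1) (ρ r) / ρ r ^ 2 * (ρ r / r) ^ 2) =
      (|∑ n ∈ ball (ρ r), F n| + (GaussPret.SS (fun _ => 1) r - GaussPret.SS (fun _ => 1) (ρ r))) / r ^ 2 := by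
    field_simp
    try ring
  rw [e1]
  exact div_le_div_of_nonneg_right h9 hr2.le

end Pool.Agent.RSG
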