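import Pool.Agent.RSG.Exp
import Pool.Agent.RSG.AS
import Pool.Agent.RSG.Det
import Pool.Agent.RSG.Interp

set_option autoImplicit false

/-!
# Module AE: almost surely there are no correlations

`s(n) = XT X (OD n) ω`.  Fix `S`.  `gS s S n = XT X (WS S n) ω` (`prod_WS`).  For `r = exp (√j)`, `y = (log r)^4 = j^2`,
`L n = (WS S n).filter (y < nm ·)`, `V n = (WS S n).filter (¬ y < nm ·)`, `XT (WS S n) = XT (V n) * XT (L n)`.
`D_j = ∑_{n ∈ ball r} (XT (V n) XT (L n) - m (L n) XT (V n))`, `E D_j^2 ≤ 4 C r^4/j^2` (`second_moment`, `card_pairs`), so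
`D_j/r^2 → 0` a.s. (`ae_tendsto_zero`), and `|∑_n m (L n) XT (V n)| ≤ ∑_n ∏_{p ∈ L n} |m p| = o(r^2)` (`det_part`).
Then `interp`.  `ae_all_iff` over the countable type `Finset GaussianInt`.
-/

open Filter Topology MeasureTheory ProbabilityTheory

namespace Pool.Agent.RSG

open Pool.Agent.GaussPret Pool.Agent.MRG

variable {Ω : Type*} [MeasurableSpace Ω] {μ : Measure Ω} [IsProbabilityMeasure μ]
  {X : P1 → Ω → ℝ}

private theorem countable_gauss : Countable GaussianInt := by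
  refine Function.Injective.countable (f := fun z : GaussianInt => (z.re, z.im)) ?_
  intro a b h
  exact Zsqrtd.ext (congrArg Prod.fst h) (congrArg Prod.snd h)

private theorem ae_rho : Tendsto (fun j : ℕ => Real.exp (Real.sqrt j)) atTop atTop :=
  Real.tendsto_exp_atTop.comp (Real.tendsto_sqrt_atTop.comp tendsto_natCast_atTop_atTop)

open scoped Classical in
/-- one pattern, along the special radii -/
private theorem ae_one (hX : Signs X μ)
    (hdiv : Tendsto (lsum (fun p => 1 - |∫ ω, X p ω ∂μ|)) atTop atTop)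
    {S : Finset GaussianInt} (hS : S.Nonempty) :
    ∀ᵐ ω ∂μ, Tendsto (fun j : ℕ => (∑ n ∈ ball (Real.exp (Real.sqrt j)), XT X (WS S n) ω) /
      (Real.exp (Real.sqrt j)) ^ 2) atTop (𝓝 0) := by
  obtain ⟨ρ, hρ⟩ : ∃ ρ : ℕ → ℝ, ρ = fun j : ℕ => Real.exp (Real.sqrt (j : ℝ)) := ⟨_, rfl⟩
  obtain ⟨L, hL⟩ : ∃ L : ℕ → GaussianInt → Finset P1, L = fun j n =>
    (WS S n).filter (fun p : P1 => Real.log (ρ j) ^ 4 < nm (p : GaussianInt)) := ⟨_, rfl⟩
  obtain ⟨V, hV⟩ : ∃ V : ℕ → GaussianInt → Finset P1, V = fun j n =>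
    (WS S n).filter (fun p : P1 => ¬ Real.log (ρ j) ^ 4 < nm (p : GaussianInt)) := ⟨_, rfl⟩
  have hρ0 : ∀ j, 0 < ρ j := fun j => by
    rw [hρ]
    exact Real.exp_pos _
  have hρ1 : ∀ j, 1 ≤ ρ j := fun j => by
    rw [hρ]
    exact Real.one_le_exp (Real.sqrt_nonneg _)
  have hρt : Tendsto ρ atTop atTop := by
    rw [hρ]
    exact ae_rho
  have hlog : ∀ j, Real.log (ρ j) ^ 4 = (j : ℝ) ^ 2 := fun j => by
    have h1 : Real.log (ρ j) = Real.sqrt j := by
      rw [hρ]
      exact Real.log_exp _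
    have h2 : Real.sqrt j ^ 4 = (Real.sqrt j ^ 2) ^ 2 := by ring
    rw [h1, h2, Real.sq_sqrt (Nat.cast_nonneg j)]
  have hsplit : ∀ j n ω, XT X (WS S n) ω = XT X (V j n) ω * XT X (L j n) ω := by
    intro j n ω
    unfold XT
    rw [hL, hV, mul_comm]
    exact (Finset.prod_filter_mul_prod_filter_not (WS S n) _ _).symm
  -- the random part
  have hmeas : ∀ j, Measurable fun ω => (∑ n ∈ ball (ρ j),
      (XT X (V j n) ω * XT X (L j n) ω - mT X μ (L j n) * XT X (V j n) ω)) / ρ j ^ 2 := by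
    intro j
    refine Measurable.div_const (Finset.measurable_fun_sum _ fun n _ => ?_) _
    exact ((XT_meas hX _).mul (XT_meas hX _)).sub ((XT_meas hX _).const_mul _)
  have hbd : ∀ j, ∃ C : ℝ, ∀ ω, |(∑ n ∈ ball (ρ j),
      (XT X (V j n) ω * XT X (L j n) ω - mT X μ (L j n) * XT X (V j n) ω)) / ρ j ^ 2| ≤ C := by
    intro j
    refine ⟨(∑ _n ∈ ball (ρ j), (2 : ℝ)) / ρ j ^ 2, fun ω => ?_⟩
    rw [abs_div, abs_of_pos (pow_pos (hρ0 j) 2)]
    refine div_le_div_of_nonneg_right ?_ (pow_pos (hρ0 j) 2).le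
    refine (Finset.abs_sum_le_sum_abs _ _).trans (Finset.sum_le_sum fun n _ => ?_)
    refine (abs_sub _ _).trans ?_
    rw [abs_mul, abs_mul, XT_abs hX, XT_abs hX]
    have := mT_abs_le hX (L j n)
    linarith
  obtain ⟨C, hC, hpairs⟩ := card_pairs S
  have hsum : Summable fun j : ℕ => 4 * C * (1 / (j : ℝ) ^ 2) :=
    (Real.summable_one_div_nat_pow.2 (by norm_num)).mul_left _
  have hsecond : ∀ᶠ j : ℕ in atTop, ∫ ω, ((∑ n ∈ ball (ρ j),
      (XT X (V j n) ω * XT X (L j n) ω - mT X μ (L j n) * XT X (V j n) ω)) / ρ j ^ 2) ^ 2 ∂μ ≤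
      4 * C * (1 / (j : ℝ) ^ 2) := by
    filter_upwards [eventually_ge_atTop 1] with j hj
    have hj1 : (1 : ℝ) ≤ (j : ℝ) ^ 2 := by
      have : (1 : ℝ) ≤ j := by exact_mod_cast hj
      nlinarith
    have h1 := second_moment hX (ball (ρ j)) (V j) (L j)
      {p : P1 | Real.log (ρ j) ^ 4 < nm (p : GaussianInt)}
      (fun n _ p hp => by
        rw [hV] at hp
        exact (Finset.mem_filter.1 hp).2)
      (fun n _ p hp => by
        rw [hL] at hp
        exact (Finset.mem_filter.1 hp).2)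
    have h2 := hpairs (ρ j) ((j : ℝ) ^ 2) (hρ1 j) hj1
    have h4 : ∀ ω, ((∑ n ∈ ball (ρ j),
        (XT X (V j n) ω * XT X (L j n) ω - mT X μ (L j n) * XT X (V j n) ω)) / ρ j ^ 2) ^ 2 =
        (∑ n ∈ ball (ρ j),
        (XT X (V j n) ω * XT X (L j n) ω - mT X μ (L j n) * XT X (V j n) ω)) ^ 2 / ρ j ^ 4 := by
      intro ω
      rw [div_pow, ← pow_mul]
    simp only [h4]
    rw [integral_div]
    have h5 : 0 < ρ j ^ 4 := pow_pos (hρ0 j) 4
    rw [div_le_iff₀ h5]
    refine h1.trans ?_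
    refine le_trans (mul_le_mul_of_nonneg_left ?_ (by norm_num : (0 : ℝ) ≤ 4))
      (le_of_eq (show 4 * (C * ρ j ^ 4 / (j : ℝ) ^ 2) = _ by ring))
    refine le_trans (Nat.cast_le.2 (Finset.card_le_card fun x hx => ?_)) h2
    simp only [Finset.mem_filter] at hx ⊢
    refine ⟨hx.1, ?_⟩
    have hx2 := hx.2
    rw [hL] at hx2
    simp only [hlog] at hx2
    exact hx2
  have hae := ae_tendsto_zero hmeas hbd hsum hsecond
  -- the conditional mean
  have hdet := (det_part (fun p => ∫ ω, X p ω ∂μ) (fun p => mean_abs_le hX p) hdiv hS).comp hρt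
  filter_upwards [hae] with ω hω
  have hcond : Tendsto (fun j : ℕ => (∑ n ∈ ball (ρ j), mT X μ (L j n) * XT X (V j n) ω) /
      ρ j ^ 2) atTop (𝓝 0) := by
    refine squeeze_zero_norm (fun j => ?_) hdet
    rw [Real.norm_eq_abs, abs_div, abs_of_pos (pow_pos (hρ0 j) 2)]
    refine div_le_div_of_nonneg_right ?_ (pow_pos (hρ0 j) 2).le
    refine (Finset.abs_sum_le_sum_abs _ _).trans (Finset.sum_le_sum fun n _ => ?_)
    rw [abs_mul, XT_abs hX, mul_one]
    unfold mT
    rw [Finset.abs_prod, hL]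
  have h6 := hω.add hcond
  rw [add_zero] at h6
  refine h6.congr fun j => ?_
  rw [← add_div, ← Finset.sum_add_distrib]
  rw [hρ]
  congr 1
  refine Finset.sum_congr rfl fun n _ => ?_
  rw [hsplit j n ω]
  ring

theorem ae_noCorr (hX : Signs X μ)
    (hdiv : Tendsto (lsum (fun p => 1 - |∫ ω, X p ω ∂μ|)) atTop atTop) :
    ∀ᵐ ω ∂μ, NoCorr (fun n => XT X (OD n) ω) := by
  have := countable_gauss
  have h1 : ∀ᵐ ω ∂μ, ∀ S : Finset GaussianInt, S.Nonempty →
      Tendsto (fun j : ℕ => (∑ n ∈ ball (Real.exp (Real.sqrt j)), XT X (WS S n) ω) /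
        (Real.exp (Real.sqrt j)) ^ 2) atTop (𝓝 0) := by
    rw [ae_all_iff]
    intro S
    by_cases hS : S.Nonempty
    · filter_upwards [ae_one hX hdiv hS] with ω hω _
      exact hω
    · exact ae_of_all _ fun ω h => absurd h hS
  filter_upwards [h1] with ω hω
  intro S hS
  have h2 : ∀ n, gS (fun n => XT X (OD n) ω) S n = XT X (WS S n) ω := by
    intro n
    unfold gS XT
    exact prod_WS (x := fun p => X p ω) (fun p => hX.val p ω) S n
  simp only [h2]
  exact interp (fun n => XT X (WS S n) ω) (fun n => (XT_abs hX _ ω).le) (hω S hS)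

end Pool.Agent.RSG
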