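import Pool.Agent.RSG.Defs

set_option autoImplicit false

/-!
# Module Bdry: shifting by a fixed vector changes little

`b` in the symmetric difference: one of `b/κ`, `(b - q)/κ` is in `U`, the other is not, and their distance is `|q|/κ ≤ δ`; by
`mem_cthick` (GaussPret/Equi) `b/κ ∈ T = cthickening δ (frontier U)` (bounded).  `card_pts_compare` for `T` (any bounded set):
`card * κ^(-2) ≤ vol T + vol (cthickening (2/κ) (frontier T)) ≤ 2 vol (cthickening (δ + 2/κ) (frontier U))`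
(`frontier T ⊆ T` closed, `cthickening_cthickening`), which is small (`tendsto_measure_cthickening_of_isCompact`, see the proof
of `card_pts_asymp`).
`shift_sum`: `∑_{n ∈ pts U κ 0} F (n + q) = ∑_{m ∈ pts U κ q} F m` (`sum_shift` in GaussPret/Main).
-/

open Filter Topology MeasureTheory ProbabilityTheory
open scoped symmDiff

namespace Pool.Agent.RSG

open Pool.Agent.GaussPret Pool.Agent.MRG

private theorem mem_pts_iff {U : Set ℂ} (hU : Bornology.IsBounded U) {κ : ℝ} (hκ : 0 < κ) {s : ℂ}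
    {b : GaussianInt} : b ∈ pts hU κ s ↔ (GaussianInt.toComplex b - s) / κ ∈ U := by
  have hκc : (κ : ℂ) ≠ 0 := by exact_mod_cast hκ.ne'
  rw [mem_pts]
  constructor
  · rintro ⟨v, hv, hv'⟩
    rw [hv', add_sub_cancel_right, mul_div_cancel_left₀ _ hκc]
    exact hv
  · intro h
    refine ⟨_, h, ?_⟩
    rw [mul_div_cancel₀ _ hκc]
    ring

theorem card_bdry {U : Set ℂ} (hU : Bornology.IsBounded U) (hF : volume (frontier U) = 0)
    (q : GaussianInt) (ε : ℝ) (hε : 0 < ε) :
    ∃ κ₀ : ℝ, 0 < κ₀ ∧ ∀ κ : ℝ, κ₀ ≤ κ →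
      (((pts hU κ 0) ∆ (pts hU κ (GaussianInt.toComplex q))).card : ℝ) ≤ ε * κ ^ 2 := by
  have hc : IsCompact (frontier U) :=
    Metric.isCompact_of_isClosed_isBounded isClosed_frontier
      (hU.closure.subset frontier_subset_closure)
  have ht := tendsto_measure_cthickening_of_isCompact (μ := (volume : Measure ℂ)) hc
  rw [hF] at ht
  have hev : ∀ᶠ r : ℝ in 𝓝 0,
      volume (Metric.cthickening r (frontier U)) < ENNReal.ofReal (ε / 2) :=
    ht.eventually (gt_mem_nhds (by simpa using hε))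
  obtain ⟨δ, hδ, hδ'⟩ := Metric.eventually_nhds_iff.1 hev
  set T : Set ℂ := Metric.cthickening (δ / 4) (frontier U) with hTdef
  have hT : Bornology.IsBounded T := hc.cthickening.isBounded
  refine ⟨(8 + 4 * ‖GaussianInt.toComplex q‖) / δ, by positivity, fun κ hκ => ?_⟩
  have hκ0 : 0 < κ := lt_of_lt_of_le (by positivity) hκ
  rw [div_le_iff₀ hδ] at hκ
  have hn := norm_nonneg (GaussianInt.toComplex q)
  have h2κ : 2 / κ ≤ δ / 4 := by
    rw [div_le_iff₀ hκ0]
    linarith
  have hqκ : ‖GaussianInt.toComplex q‖ / κ ≤ δ / 4 := by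
    rw [div_le_iff₀ hκ0]
    linarith
  have hvT : volume T ≤ ENNReal.ofReal (ε / 2) := by
    refine (hδ' ?_).le
    rw [dist_zero_right, Real.norm_eq_abs, abs_of_pos (by positivity)]
    linarith
  have hvF : volume (Metric.cthickening (2 / κ) (frontier T)) ≤ ENNReal.ofReal (ε / 2) := by
    have h1 : Metric.cthickening (2 / κ) (frontier T) ⊆
        Metric.cthickening (2 / κ + δ / 4) (frontier U) := by
      refine (Metric.cthickening_subset_of_subset _
        (Metric.isClosed_cthickening.frontier_subset)).trans ?_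
      exact Metric.cthickening_cthickening_subset (by positivity) (by positivity) _
    refine (measure_mono h1).trans (hδ' ?_).le
    rw [dist_zero_right, Real.norm_eq_abs, abs_of_pos (by positivity)]
    linarith
  have hsub : (pts hU κ 0) ∆ (pts hU κ (GaussianInt.toComplex q)) ⊆ pts hT κ 0 := by
    intro b hb
    rw [Finset.mem_symmDiff, mem_pts_iff hU hκ0, mem_pts_iff hU hκ0] at hb
    rw [mem_pts_iff hT hκ0]
    have hd : dist ((GaussianInt.toComplex b - 0) / κ)
        ((GaussianInt.toComplex b - GaussianInt.toComplex q) / κ) ≤ δ / 4 := by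
      have h1 : (GaussianInt.toComplex b - 0) / κ -
          (GaussianInt.toComplex b - GaussianInt.toComplex q) / κ =
          GaussianInt.toComplex q / κ := by
        rw [← sub_div]
        ring
      rw [dist_eq_norm, h1, norm_div, Complex.norm_real, Real.norm_eq_abs, abs_of_pos hκ0]
      exact hqκ
    refine mem_cthick ?_ hd
    rcases hb with ⟨h1, h2⟩ | ⟨h1, h2⟩
    · exact Or.inl ⟨h1, h2⟩
    · exact Or.inr ⟨h2, h1⟩
  obtain ⟨h1, -⟩ := card_pts_compare hT κ hκ0 0
  have h2 : (((pts hT κ 0).card : ℕ) : ENNReal) * ENNReal.ofReal ((κ ^ 2)⁻¹) ≤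
      ENNReal.ofReal ε := by
    refine h1.trans ((add_le_add hvT hvF).trans ?_)
    rw [← ENNReal.ofReal_add (by positivity) (by positivity), add_halves]
  have h3 : ((pts hT κ 0).card : ℝ) * (κ ^ 2)⁻¹ ≤ ε := by
    rw [← ENNReal.ofReal_natCast, ← ENNReal.ofReal_mul (Nat.cast_nonneg _)] at h2
    exact (ENNReal.ofReal_le_ofReal_iff hε.le).1 h2
  have h4 : ((((pts hU κ 0) ∆ (pts hU κ (GaussianInt.toComplex q))).card : ℕ) : ℝ) ≤
      ((pts hT κ 0).card : ℝ) := Nat.cast_le.2 (Finset.card_le_card hsub)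
  refine h4.trans ?_
  rw [← div_eq_mul_inv, div_le_iff₀ (by positivity)] at h3
  exact h3

theorem shift_sum {U : Set ℂ} (hU : Bornology.IsBounded U) (hF : volume (frontier U) = 0)
    (q : GaussianInt) {B : ℝ} (hB : 0 ≤ B) (ε : ℝ) (hε : 0 < ε) :
    ∃ κ₀ : ℝ, 0 < κ₀ ∧ ∀ κ : ℝ, κ₀ ≤ κ → ∀ F : GaussianInt → ℝ, (∀ n, |F n| ≤ B) →
      |∑ n ∈ pts hU κ 0, F (n + q) - ∑ n ∈ pts hU κ 0, F n| ≤ ε * κ ^ 2 := by
  obtain ⟨κ₀, hκ₀, h⟩ := card_bdry hU hF q (ε / (B + 1)) (by positivity)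
  refine ⟨κ₀, hκ₀, fun κ hκ F hFB => ?_⟩
  have h1 : ∑ n ∈ pts hU κ 0, F (n + q) = ∑ m ∈ pts hU κ (GaussianInt.toComplex q), F m := by
    rw [← sum_shift hU κ F q]
    exact Finset.sum_congr rfl fun n _ => by rw [add_comm]
  have h2 := h κ hκ
  rw [h1, ← Finset.sum_sdiff_sub_sum_sdiff]
  set P := pts hU κ (GaussianInt.toComplex q)
  set Q := pts hU κ 0
  have h3 : ∀ A : Finset GaussianInt, |∑ n ∈ A, F n| ≤ A.card * B := by
    intro A
    refine (Finset.abs_sum_le_sum_abs _ _).trans ?_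
    refine (Finset.sum_le_sum fun n _ => hFB n).trans ?_
    rw [Finset.sum_const, nsmul_eq_mul]
  have h4 : (((Q ∆ P).card : ℕ) : ℝ) = ((P \ Q).card : ℝ) + ((Q \ P).card : ℝ) := by
    have h5 : Q ∆ P = (P \ Q) ∪ (Q \ P) := by
      rw [symmDiff_comm]
      rfl
    rw [h5, Finset.card_union_of_disjoint, Nat.cast_add]
    exact Finset.disjoint_left.2 fun x hx hx' =>
      (Finset.mem_sdiff.1 hx).2 (Finset.mem_sdiff.1 hx').1
  have h6 : |∑ n ∈ P \ Q, F n - ∑ n ∈ Q \ P, F n| ≤ (((Q ∆ P).card : ℕ) : ℝ) * B := by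
    rw [h4, add_mul]
    exact (abs_sub _ _).trans (add_le_add (h3 _) (h3 _))
  refine h6.trans ((mul_le_mul_of_nonneg_right h2 hB).trans ?_)
  have h7 : ε / (B + 1) * κ ^ 2 * B = ε * κ ^ 2 * (B / (B + 1)) := by
    field_simp
  rw [h7]
  have h8 : B / (B + 1) ≤ 1 := by
    rw [div_le_one (by positivity)]
    linarith
  exact (mul_le_mul_of_nonneg_left h8 (by positivity)).trans (le_of_eq (mul_one _))

end Pool.Agent.RSG
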