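import Pool.Agent.RSG.Odd

set_option autoImplicit false

/-!
# Module Cnt: counting

* `sum_nm_sq`: dyadic decomposition `2^j y < nm p ≤ 2^(j+1) y`: at most `9 * 2^(j+1) y` elements (`card_ball_le`), each term at most
  `1/(2^j y)^2`: total `≤ ∑_j 18/(2^j y) = 36/y`.  (For a finite `T` choose `J` with all norms `≤ 2^J y` and induct on `J`.)
* `card_pairs`: a common prime `p` of the two sets has `y < nm p`, and `p ∣ n + h`, `p ∣ n' + h'` with `h, h' ∈ S`,
  `n + h ≠ 0`, `n' + h' ≠ 0`, so `nm p ≤ (r + K)^2` if `|h| ≤ K` for `h ∈ S`; for fixed `p`, the number of `n ∈ ball r` with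
  `p ∣ n + h ≠ 0` is at most `#{m ∈ ball (r + K) : p ∣ m} ≤ 9 (r + K)^2 / nm p` (`card_ball_dvd_le`); so the number of pairs is
  at most `∑_p (#S * 9 (r + K)^2 / nm p)^2 ≤ (#S)^2 81 (r+K)^4 * 36/y`.
* `card_sq`: `#{n ∈ ball r : p^2 ∣ n + h ≠ 0} ≤ 9 (r+K)^2/(nm p)^2`; sum over `p` with `y < nm p ≤ (r+K)^2`.
-/

open Filter Topology MeasureTheory ProbabilityTheory

namespace Pool.Agent.RSG

open Pool.Agent.GaussPret Pool.Agent.MRG

private theorem cnt_card (y : ℝ) (hy : 0 ≤ y) (T : Finset P1)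
    (hT : ∀ p ∈ T, nm (p : GaussianInt) ≤ y) : (T.card : ℝ) ≤ 9 * y := by
  have h1 : T.card ≤ (ball (√y)).card := by
    apply Finset.card_le_card_of_injOn (fun p : P1 => (p : GaussianInt))
    · intro p hp
      have h2 := hT p hp
      rw [nm_eq] at h2
      refine mem_ball.2 ⟨p.2.1.ne_zero, ?_⟩
      exact Real.le_sqrt_of_sq_le h2
    · intro p _ q _ h
      exact Subtype.ext h
  have h2 : (T.card : ℝ) ≤ (ball (√y)).card := by exact_mod_cast h1
  have h3 := card_ball_le (√y)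
  rw [Real.sq_sqrt hy] at h3
  exact h2.trans h3

private theorem cnt_dyadic (J : ℕ) : ∀ (y : ℝ), 1 ≤ y → ∀ T : Finset P1,
    (∀ p ∈ T, y < nm (p : GaussianInt)) → (∀ p ∈ T, nm (p : GaussianInt) ≤ 2 ^ J * y) →
    ∑ p ∈ T, 1 / nm (p : GaussianInt) ^ 2 ≤ 36 / y := by
  classical
  induction J with
  | zero =>
    intro y hy T hT hT'
    have h1 : T = ∅ := by
      apply Finset.eq_empty_of_forall_notMem
      intro p hp
      have h2 := hT p hp
      have h3 := hT' p hp
      rw [pow_zero, one_mul] at h3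
      linarith
    rw [h1, Finset.sum_empty]
    positivity
  | succ J ih =>
    intro y hy T hT hT'
    have hy0 : 0 < y := by linarith
    rw [← Finset.sum_filter_add_sum_filter_not T (fun p : P1 => nm (p : GaussianInt) ≤ 2 * y)]
    have h1 : ∑ p ∈ T.filter (fun p : P1 => nm (p : GaussianInt) ≤ 2 * y),
        1 / nm (p : GaussianInt) ^ 2 ≤ 18 / y := by
      have h2 : ∀ p ∈ T.filter (fun p : P1 => nm (p : GaussianInt) ≤ 2 * y),
          1 / nm (p : GaussianInt) ^ 2 ≤ 1 / y ^ 2 := by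
        intro p hp
        have h3 := hT p (Finset.mem_filter.1 hp).1
        have h4 : y ^ 2 ≤ nm (p : GaussianInt) ^ 2 := pow_le_pow_left₀ hy0.le h3.le 2
        exact one_div_le_one_div_of_le (by positivity) h4
      have h3 := cnt_card (2 * y) (by positivity)
        (T.filter (fun p : P1 => nm (p : GaussianInt) ≤ 2 * y)) fun p hp => (Finset.mem_filter.1 hp).2
      calc ∑ p ∈ T.filter (fun p : P1 => nm (p : GaussianInt) ≤ 2 * y), 1 / nm (p : GaussianInt) ^ 2
          ≤ ∑ _p ∈ T.filter (fun p : P1 => nm (p : GaussianInt) ≤ 2 * y), 1 / y ^ 2 :=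
            Finset.sum_le_sum h2
        _ = (T.filter (fun p : P1 => nm (p : GaussianInt) ≤ 2 * y)).card * (1 / y ^ 2) := by
            rw [Finset.sum_const, nsmul_eq_mul]
        _ ≤ 9 * (2 * y) * (1 / y ^ 2) := mul_le_mul_of_nonneg_right h3 (by positivity)
        _ = 18 / y := by
            field_simp
            ring
    have h2 : ∑ p ∈ T.filter (fun p : P1 => ¬ nm (p : GaussianInt) ≤ 2 * y),
        1 / nm (p : GaussianInt) ^ 2 ≤ 36 / (2 * y) := by
      refine ih (2 * y) (by linarith) _ (fun p hp => not_le.1 (Finset.mem_filter.1 hp).2)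
        fun p hp => ?_
      have h3 := hT' p (Finset.mem_filter.1 hp).1
      rw [pow_succ] at h3
      linarith
    have h3 : 36 / (2 * y) = 18 / y := by
      field_simp
      ring
    have h4 : 36 / y = 18 / y + 18 / y := by ring
    rw [h3] at h2
    rw [h4]
    exact add_le_add h1 h2

theorem sum_nm_sq {y : ℝ} (hy : 1 ≤ y) (T : Finset P1)
    (hT : ∀ p ∈ T, y < nm (p : GaussianInt)) :
    ∑ p ∈ T, 1 / nm (p : GaussianInt) ^ 2 ≤ 36 / y := by
  obtain ⟨J, hJ⟩ := pow_unbounded_of_one_lt (∑ p ∈ T, nm (p : GaussianInt))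
    (one_lt_two (α := ℝ))
  refine cnt_dyadic J y hy T hT fun p hp => ?_
  have h1 : nm (p : GaussianInt) ≤ ∑ p ∈ T, nm (p : GaussianInt) :=
    Finset.single_le_sum (f := fun p : P1 => nm (p : GaussianInt)) (fun q _ => nm_nonneg _) hp
  have h2 : (2 : ℝ) ^ J ≤ 2 ^ J * y := le_mul_of_one_le_right (by positivity) hy
  linarith

open scoped Classical in
private theorem cnt_shift (h d : GaussianInt) (hd : d ≠ 0) {r K : ℝ}
    (hK : ‖GaussianInt.toComplex h‖ ≤ K) :
    (((ball r).filter (fun n => n + h ≠ 0 ∧ d ∣ n + h)).card : ℝ) ≤ 9 * (r + K) ^ 2 / nm d := by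
  refine le_trans ?_ (card_ball_dvd_le (r + K) d hd)
  have h1 : ((ball r).filter (fun n => n + h ≠ 0 ∧ d ∣ n + h)).card ≤
      ((ball (r + K)).filter (fun n => d ∣ n)).card := by
    apply Finset.card_le_card_of_injOn (fun n => n + h)
    · intro n hn
      obtain ⟨h2, h3, h4⟩ := Finset.mem_filter.1 hn
      refine Finset.mem_filter.2 ⟨mem_ball.2 ⟨h3, ?_⟩, h4⟩
      have h5 := (mem_ball.1 h2).2
      show ‖GaussianInt.toComplex (n + h)‖ ≤ r + K
      rw [map_add]
      exact (norm_add_le _ _).trans (add_le_add h5 hK)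
    · intro a _ b _ hab
      exact add_right_cancel hab
  exact_mod_cast h1

/-- a divisor of `n + h` is small -/
private theorem cnt_small {n h d : GaussianInt} {r K : ℝ} (hn : n ∈ ball r)
    (hK : ‖GaussianInt.toComplex h‖ ≤ K) (h0 : n + h ≠ 0) (hd : d ∣ n + h) : d ∈ ball (r + K) := by
  obtain ⟨m, hm⟩ := hd
  have hd0 : d ≠ 0 := by
    rintro rfl
    rw [zero_mul] at hm
    exact h0 hm
  have hm0 : m ≠ 0 := by
    rintro rfl
    rw [mul_zero] at hm
    exact h0 hm
  refine mem_ball.2 ⟨hd0, ?_⟩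
  have h1 := one_le_norm hm0
  have h2 : ‖GaussianInt.toComplex (n + h)‖ = ‖GaussianInt.toComplex d‖ * ‖GaussianInt.toComplex m‖ := by
    rw [hm, map_mul, norm_mul]
  have h3 : ‖GaussianInt.toComplex (n + h)‖ ≤ r + K := by
    rw [map_add]
    exact (norm_add_le _ _).trans (add_le_add (mem_ball.1 hn).2 hK)
  have h4 := norm_nonneg (GaussianInt.toComplex d)
  nlinarith

open scoped Classical in
/-- the primes of norm more than `y` in the ball -/
private noncomputable def Ps (R y : ℝ) : Finset P1 :=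
  ((ball R).subtype (fun p => Prime p ∧ 0 < p.re ∧ 0 ≤ p.im)).filter
    fun p : P1 => y < nm (p : GaussianInt)

private theorem mem_Ps {R y : ℝ} {p : P1} :
    p ∈ Ps R y ↔ (p : GaussianInt) ∈ ball R ∧ y < nm (p : GaussianInt) := by
  classical
  unfold Ps
  rw [Finset.mem_filter, Finset.mem_subtype]

private theorem cnt_r {r K : ℝ} (hr : 1 ≤ r) (hK : 0 ≤ K) : r + K ≤ (1 + K) * r := by nlinarith

open scoped Classical in
theorem card_pairs (S : Finset GaussianInt) : ∃ C : ℝ, 0 < C ∧ ∀ r y : ℝ, 1 ≤ r → 1 ≤ y →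
    (((ball r ×ˢ ball r).filter (fun x : GaussianInt × GaussianInt =>
      ¬ Disjoint ((WS S x.1).filter (fun p : P1 => y < nm (p : GaussianInt)))
        ((WS S x.2).filter (fun p : P1 => y < nm (p : GaussianInt))))).card : ℝ) ≤
      C * r ^ 4 / y := by
  set K : ℝ := ∑ h ∈ S, ‖GaussianInt.toComplex h‖ with hK
  have hK0 : 0 ≤ K := Finset.sum_nonneg fun h _ => norm_nonneg _
  have hKh : ∀ h ∈ S, ‖GaussianInt.toComplex h‖ ≤ K := fun h hh =>
    Finset.single_le_sum (f := fun h => ‖GaussianInt.toComplex h‖) (fun _ _ => norm_nonneg _) hh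
  refine ⟨(S.card : ℝ) ^ 2 * 81 * 36 * (1 + K) ^ 4 + 1, by positivity, fun r y hr hy => ?_⟩
  have hy0 : 0 < y := by linarith
  have hr0 : 0 < r := by linarith
  let A : P1 → Finset GaussianInt := fun p =>
    (ball r).filter (fun n => ∃ h ∈ S, n + h ≠ 0 ∧ (p : GaussianInt) ∣ n + h)
  have hA : ∀ p : P1, ((A p).card : ℝ) ≤ S.card * (9 * (r + K) ^ 2) / nm (p : GaussianInt) := by
    intro p
    have h1 : A p ⊆ S.biUnion fun h =>
        (ball r).filter (fun n => n + h ≠ 0 ∧ (p : GaussianInt) ∣ n + h) := by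
      intro n hn
      obtain ⟨h2, h, hh, h3, h4⟩ := Finset.mem_filter.1 hn
      exact Finset.mem_biUnion.2 ⟨h, hh, Finset.mem_filter.2 ⟨h2, h3, h4⟩⟩
    have h2 : ((A p).card : ℝ) ≤ ∑ h ∈ S,
        (((ball r).filter (fun n => n + h ≠ 0 ∧ (p : GaussianInt) ∣ n + h)).card : ℝ) := by
      exact_mod_cast (Finset.card_le_card h1).trans Finset.card_biUnion_le
    calc ((A p).card : ℝ) ≤ _ := h2
      _ ≤ ∑ _h ∈ S, 9 * (r + K) ^ 2 / nm (p : GaussianInt) :=
          Finset.sum_le_sum fun h hh => cnt_shift h p p.2.1.ne_zero (hKh h hh)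
      _ = S.card * (9 * (r + K) ^ 2) / nm (p : GaussianInt) := by
          rw [Finset.sum_const, nsmul_eq_mul]
          ring
  have hsub : ((ball r ×ˢ ball r).filter (fun x : GaussianInt × GaussianInt =>
      ¬ Disjoint ((WS S x.1).filter (fun p : P1 => y < nm (p : GaussianInt)))
        ((WS S x.2).filter (fun p : P1 => y < nm (p : GaussianInt))))) ⊆
      (Ps (r + K) y).biUnion fun p => A p ×ˢ A p := by
    rintro ⟨n, n'⟩ hx
    obtain ⟨h1, h2⟩ := Finset.mem_filter.1 hx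
    obtain ⟨hn, hn'⟩ := Finset.mem_product.1 h1
    rw [Finset.not_disjoint_iff] at h2
    obtain ⟨p, hp, hp'⟩ := h2
    obtain ⟨hp1, hp2⟩ := Finset.mem_filter.1 hp
    obtain ⟨hp1', -⟩ := Finset.mem_filter.1 hp'
    have e1 := exists_of_mem_WS hp1
    have e2 := exists_of_mem_WS hp1'
    obtain ⟨h, hh, h3, h4⟩ := id e1
    refine Finset.mem_biUnion.2 ⟨p, mem_Ps.2 ⟨cnt_small hn (hKh h hh) h3 h4, hp2⟩,
      Finset.mem_product.2 ⟨Finset.mem_filter.2 ⟨hn, e1⟩, Finset.mem_filter.2 ⟨hn', e2⟩⟩⟩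
  have hcard : (((ball r ×ˢ ball r).filter (fun x : GaussianInt × GaussianInt =>
      ¬ Disjoint ((WS S x.1).filter (fun p : P1 => y < nm (p : GaussianInt)))
        ((WS S x.2).filter (fun p : P1 => y < nm (p : GaussianInt))))).card : ℝ) ≤
      ∑ p ∈ Ps (r + K) y, ((A p).card : ℝ) ^ 2 := by
    have h1 := (Finset.card_le_card hsub).trans Finset.card_biUnion_le
    have h2 : ∀ p : P1, (A p ×ˢ A p).card = (A p).card ^ 2 := fun p => by
      rw [Finset.card_product, pow_two]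
    simp only [h2] at h1
    exact_mod_cast h1
  refine hcard.trans ?_
  calc ∑ p ∈ Ps (r + K) y, ((A p).card : ℝ) ^ 2
      ≤ ∑ p ∈ Ps (r + K) y, (S.card * (9 * (r + K) ^ 2) / nm (p : GaussianInt)) ^ 2 :=
        Finset.sum_le_sum fun p _ => pow_le_pow_left₀ (Nat.cast_nonneg _) (hA p) 2
    _ = ((S.card : ℝ) ^ 2 * 81 * (r + K) ^ 4) * ∑ p ∈ Ps (r + K) y, 1 / nm (p : GaussianInt) ^ 2 := by
        rw [Finset.mul_sum]
        refine Finset.sum_congr rfl fun p _ => ?_
        rw [div_pow]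
        ring
    _ ≤ ((S.card : ℝ) ^ 2 * 81 * ((1 + K) * r) ^ 4) * (36 / y) := by
        refine mul_le_mul ?_ (sum_nm_sq hy _ fun p hp => (mem_Ps.1 hp).2)
          (Finset.sum_nonneg fun p _ => by positivity) (by positivity)
        refine mul_le_mul_of_nonneg_left ?_ (by positivity)
        exact pow_le_pow_left₀ (by positivity) (cnt_r hr hK0) 4
    _ = ((S.card : ℝ) ^ 2 * 81 * 36 * (1 + K) ^ 4) * r ^ 4 / y := by ring
    _ ≤ ((S.card : ℝ) ^ 2 * 81 * 36 * (1 + K) ^ 4 + 1) * r ^ 4 / y := by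
        gcongr
        linarith

open scoped Classical in
theorem card_sq (h : GaussianInt) : ∃ C : ℝ, 0 < C ∧ ∀ r y : ℝ, 1 ≤ r → 1 ≤ y →
    (((ball r).filter (fun n : GaussianInt => ∃ p : P1, y < nm (p : GaussianInt) ∧ n + h ≠ 0 ∧
      (p : GaussianInt) ^ 2 ∣ n + h)).card : ℝ) ≤ C * r ^ 2 / y := by
  set K : ℝ := ‖GaussianInt.toComplex h‖ with hK
  have hK0 : 0 ≤ K := norm_nonneg _
  refine ⟨9 * 36 * (1 + K) ^ 2, by positivity, fun r y hr hy => ?_⟩
  have hy0 : 0 < y := by linarith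
  have hsub : ((ball r).filter (fun n : GaussianInt => ∃ p : P1, y < nm (p : GaussianInt) ∧
      n + h ≠ 0 ∧ (p : GaussianInt) ^ 2 ∣ n + h)) ⊆
      (Ps (r + K) y).biUnion fun p =>
        (ball r).filter (fun n => n + h ≠ 0 ∧ (p : GaussianInt) ^ 2 ∣ n + h) := by
    intro n hn
    obtain ⟨hn1, p, hp, h0, hd⟩ := Finset.mem_filter.1 hn
    have h1 : (p : GaussianInt) ∣ n + h := (dvd_pow_self _ two_ne_zero).trans hd
    exact Finset.mem_biUnion.2 ⟨p, mem_Ps.2 ⟨cnt_small hn1 le_rfl h0 h1, hp⟩,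
      Finset.mem_filter.2 ⟨hn1, h0, hd⟩⟩
  have hcard : (((ball r).filter (fun n : GaussianInt => ∃ p : P1, y < nm (p : GaussianInt) ∧
      n + h ≠ 0 ∧ (p : GaussianInt) ^ 2 ∣ n + h)).card : ℝ) ≤ ∑ p ∈ Ps (r + K) y,
        (((ball r).filter (fun n => n + h ≠ 0 ∧ (p : GaussianInt) ^ 2 ∣ n + h)).card : ℝ) := by
    exact_mod_cast (Finset.card_le_card hsub).trans Finset.card_biUnion_le
  calc _ ≤ _ := hcard
    _ ≤ ∑ p ∈ Ps (r + K) y, 9 * (r + K) ^ 2 * (1 / nm (p : GaussianInt) ^ 2) := by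
        refine Finset.sum_le_sum fun p _ => ?_
        have h1 := cnt_shift h ((p : GaussianInt) ^ 2) (pow_ne_zero 2 p.2.1.ne_zero) (r := r)
          (le_refl K)
        rw [nm_pow] at h1
        rw [mul_one_div]
        exact h1
    _ = 9 * (r + K) ^ 2 * ∑ p ∈ Ps (r + K) y, 1 / nm (p : GaussianInt) ^ 2 := by
        rw [Finset.mul_sum]
    _ ≤ 9 * ((1 + K) * r) ^ 2 * (36 / y) := by
        refine mul_le_mul ?_ (sum_nm_sq hy _ fun p hp => (mem_Ps.1 hp).2)
          (Finset.sum_nonneg fun p _ => by positivity) (by positivity)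
        refine mul_le_mul_of_nonneg_left ?_ (by norm_num)
        exact pow_le_pow_left₀ (by positivity) (cnt_r hr hK0) 2
    _ = 9 * 36 * (1 + K) ^ 2 * r ^ 2 / y := by ring

end Pool.Agent.RSG
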