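import Pool.Agent.MRG.TK
import Pool.Agent.Hhelper49.GaussPret.Zero

set_option autoImplicit false

/-!
# Random sign twists of multiplicative functions on the Gaussian integers: definitions

* `gS s S n = ∏_{h ∈ S} s (n + h)`;
* `NoCorr s`: the mean over discs of `gS s S` is `0` for every nonempty finite `S`;
* `Signs X μ`: independent random signs;
* `XT X T`: the product of the signs in the finite set `T`; `mT X μ T`: its expectation;
* `lsum δ t = ∑_{(log t)^4 < N(p) ≤ t} δ p / N(p)`.
-/

open Filter Topology MeasureTheory ProbabilityTheory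

namespace Pool.Agent.RSG

open Pool.Agent.GaussPret Pool.Agent.MRG

/-- the product over the shifts. -/
noncomputable def gS (s : GaussianInt → ℝ) (S : Finset GaussianInt) (n : GaussianInt) : ℝ :=
  ∏ h ∈ S, s (n + h)

/-- no correlations along discs. -/
def NoCorr (s : GaussianInt → ℝ) : Prop :=
  ∀ S : Finset GaussianInt, S.Nonempty →
    Tendsto (fun r : ℝ => (∑ n ∈ ball r, gS s S n) / r ^ 2) atTop (𝓝 0)

/-- independent random signs. -/
structure Signs {Ω ι : Type*} [MeasurableSpace Ω] (X : ι → Ω → ℝ) (μ : Measure Ω) : Prop where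
  meas : ∀ p, Measurable (X p)
  indep : iIndepFun X μ
  val : ∀ p ω, X p ω = 1 ∨ X p ω = -1

/-- the product of the signs in `T`. -/
noncomputable def XT {Ω ι : Type*} (X : ι → Ω → ℝ) (T : Finset ι) (ω : Ω) : ℝ := ∏ p ∈ T, X p ω

/-- the product of the expectations. -/
noncomputable def mT {Ω ι : Type*} [MeasurableSpace Ω] (X : ι → Ω → ℝ) (μ : Measure Ω)
    (T : Finset ι) : ℝ := ∏ p ∈ T, ∫ ω, X p ω ∂μ

/-- the sum of `δ p / N(p)` over the primes with `(log t)^4 < N(p) ≤ t`. -/
noncomputable def lsum (δ : P1 → ℝ) (t : ℝ) : ℝ :=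
  ∑' p : P1, if Real.log t ^ 4 < nm (p : GaussianInt) ∧ nm (p : GaussianInt) ≤ t then
    δ p / nm (p : GaussianInt) else 0

end Pool.Agent.RSG
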