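import Pool.Agent.RSG.DetMain

set_option autoImplicit false

/-!
# Module DetChar: the general form of `det_main`, with a real ray class character

`s` has no correlations, `s f` is multiplicative and `∑ (|f p| - s p f p χ p) / nm p < ∞`.
-/

open Filter Topology MeasureTheory ProbabilityTheory

namespace Pool.Agent.RSG

open Pool.Agent.GaussPret Pool.Agent.MRG

theorem det_char {s f χ : GaussianInt → ℝ} {m : ℕ} (hs : ∀ n, s n = 1 ∨ s n = -1) (hn : NoCorr s)
    (hf : IsBCM f) (hsf : IsBCM (fun n => s n * f n)) (hχ : IsRayChar m χ) (hm : 0 < m)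
    (hsum : Summable (fun p : P1 => (|f (p : GaussianInt)| -
      s (p : GaussianInt) * f (p : GaussianInt) * χ (p : GaussianInt)) / nm (p : GaussianInt)))
    {Φ : ℕ → Finset GaussianInt} (hΦ : IsDilatedFolner Φ) : ShortAvg f Φ := by
  by_cases hPP : PP f = 0
  swap
  · refine pret_main hf isRayChar_one one_pos ?_ hΦ
    simpa only [mul_one] using summable_of_PP hf hPP
  by_cases hPPa : PP (fun n => |f n|) = 0
  · exact zero_main hf hPPa hΦ
  have hΦ' := hΦ
  obtain ⟨U, k, hU, hF, hV, hk, hkt, hΦ⟩ := hΦ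
  obtain ⟨ρ, hρ0, hρ⟩ := hU.exists_pos_norm_le
  have hVr : 0 < (volume U).toReal := ENNReal.toReal_pos hV.ne' hU.measure_lt_top.ne
  have hcard := card_lower hU hF hV hkt hΦ
  unfold ShortAvg
  rw [hPP]
  set V := (volume U).toReal with hVdef
  apply conv_lemma _ (1 + 2 * (1 + (ρ + 1) ^ 2) / V) (by positivity)
  intro ε hε
  have hsum' : Summable (fun p : P1 => (1 - (fun n => s n * f n) (p : GaussianInt) *
      χ (p : GaussianInt)) / nm (p : GaussianInt)) := by
    have h1 := (summable_of_PP hf.abs hPPa).add hsum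
    refine h1.congr fun p => ?_
    show (1 - |f (p : GaussianInt)|) / nm (p : GaussianInt) + _ = _
    rw [← add_div]
    congr 1
    ring
  obtain ⟨Q, hQ, g, hper, hg1, hfg, -⟩ := exists_per hsf hχ hm hsum' ε hε
  have hFg : ∀ r : ℝ, GaussPret.SS (fun n => |f n - s n * g n|) r ≤ ε * r ^ 2 := by
    intro r
    refine le_trans (le_of_eq ?_) (hfg r)
    unfold GaussPret.SS
    refine Finset.sum_congr rfl fun n hn => ?_
    show |f n - s n * g n| = |s n * f n - g n|
    rcases hs n with h2 | h2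
    · rw [h2, one_mul, one_mul]
    · rw [h2, ← abs_neg]
      congr 1
      ring
  have hF1 : ∀ n, |s n * g n| ≤ 1 := by
    intro n
    rw [abs_mul]
    rcases hs n with h2 | h2
    · rw [h2]; simpa using hg1 n
    · rw [h2]; simpa using hg1 n
  refine ⟨fun H => mper Q (lw (Φ H) g 0), ?_, ?_⟩
  · intro H
    have havg := (lim_window hs hn hper 0 (Φ H) hΦ')
    have havg' : ∀ᶠ N in atTop, |avg (Φ N) (fun n => |avg (Φ H) (fun h => s (n + h) * g (n + h)) - 0|)
        - mper Q (lw (Φ H) g 0)| ≤ ε := by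
      have := (Metric.tendsto_nhds.1 havg) ε hε
      filter_upwards [this] with N hN
      rw [Real.dist_eq] at hN
      exact hN.le
    obtain ⟨RA, hRA0, hRA⟩ : ∃ RA : ℝ, 0 ≤ RA ∧ ∀ n ∈ Φ H, ‖GaussianInt.toComplex n‖ ≤ RA := by
      obtain ⟨R, hR⟩ := ((Φ H).finite_toSet.image (fun n => ‖GaussianInt.toComplex n‖)).bddAbove
      exact ⟨max R 0, le_max_right _ _, fun n hn => (hR ⟨n, hn, rfl⟩).trans (le_max_left _ _)⟩
    filter_upwards [havg', hcard, hkt.eventually_ge_atTop 1, hkt.eventually_ge_atTop RA,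
      hkt.eventually_ge_atTop (2 * ((Φ H).card : ℝ) / ε)] with N h1 h2 h3 h4 h5
    have hkpos : 0 < k N := by linarith
    have hk2 : 0 < k N ^ 2 := by positivity
    have hCpos : 0 < ((Φ N).card : ℝ) := lt_of_lt_of_le (by positivity) h2
    have hRB : ∀ n ∈ Φ N, ‖GaussianInt.toComplex n‖ ≤ ρ * k N := by
      intro n hn
      by_cases h0 : n = 0
      · rw [h0, map_zero, norm_zero]; positivity
      · obtain ⟨u, hu, hnu⟩ := (hΦ N n h0).1 hn
        rw [hnu, norm_mul, Complex.norm_real, Real.norm_eq_abs, abs_of_pos hkpos, mul_comm]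
        exact mul_le_mul_of_nonneg_right (hρ u hu) hkpos.le
    have hcmp := sum_cmp (P := 0) (fun n hn => hf.abs_le_one hn) hF1 (Φ H) (Φ N) RA
      (ρ * k N) (hFg _) hRA hRB
    set S1 := ∑ n ∈ Φ N, |avg (win (Φ H) n) f - 0| with hS1
    set S2 := ∑ n ∈ Φ N, |avg (Φ H) (fun h => s (n + h) * g (n + h)) - 0| with hS2
    have h6 : |avg (Φ N) (fun n => |avg (win (Φ H) n) f - 0|)
        - avg (Φ N) (fun n => |avg (Φ H) (fun h => s (n + h) * g (n + h)) - 0|)|
        ≤ 2 * (1 + (ρ + 1) ^ 2) / V * ε := by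
      rw [avg, avg, ← hS1, ← hS2, ← sub_div, abs_div, abs_of_pos hCpos, div_le_iff₀ hCpos]
      refine hcmp.trans ?_
      have h7 : 2 * ((Φ H).card : ℝ) ≤ ε * k N ^ 2 := by
        rw [div_le_iff₀ hε] at h5
        nlinarith [mul_le_mul_of_nonneg_left h3 (by positivity : 0 ≤ ε * k N)]
      have h8 : ε * (ρ * k N + RA) ^ 2 ≤ ε * ((ρ + 1) ^ 2 * k N ^ 2) := by
        apply mul_le_mul_of_nonneg_left _ hε.le
        rw [← mul_pow]
        apply pow_le_pow_left₀ (by positivity)
        linarith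
      have h10 : 2 * (1 + (ρ + 1) ^ 2) / V * ε * (k N ^ 2 * (V / 2)) ≤
          2 * (1 + (ρ + 1) ^ 2) / V * ε * ((Φ N).card : ℝ) := by
        apply mul_le_mul_of_nonneg_left h2
        positivity
      have h11 : 2 * (1 + (ρ + 1) ^ 2) / V * ε * (k N ^ 2 * (V / 2))
          = ε * k N ^ 2 + ε * ((ρ + 1) ^ 2 * k N ^ 2) := by
        field_simp
      linarith
    have h12 : avg (Φ N) (fun n => |avg (win (Φ H) n) f - 0|)
        - mper Q (lw (Φ H) g 0)
        = (avg (Φ N) (fun n => |avg (win (Φ H) n) f - 0|)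
        - avg (Φ N) (fun n => |avg (Φ H) (fun h => s (n + h) * g (n + h)) - 0|))
        + (avg (Φ N) (fun n => |avg (Φ H) (fun h => s (n + h) * g (n + h)) - 0|)
          - mper Q (lw (Φ H) g 0)) := by ring
    rw [h12]
    refine (abs_add_le _ _).trans ?_
    calc _ ≤ 2 * (1 + (ρ + 1) ^ 2) / V * ε + ε := add_le_add h6 h1
      _ = (1 + 2 * (1 + (ρ + 1) ^ 2) / V) * ε := by ring
  · have hk1 : ∀ᶠ H in atTop, 1 / (2 * ε) ≤ k H := hkt.eventually_ge_atTop _
    have hk2 : Tendsto (fun H => k H ^ 2 * (V / 2)) atTop atTop :=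
      ((tendsto_pow_atTop two_ne_zero).comp hkt).atTop_mul_const (by positivity)
    have hk3 := hk2.eventually_ge_atTop ((1 / (2 * ε)) ^ 2)
    filter_upwards [hcard, hk3] with H h1 h2
    have h3 : (1 / (2 * ε)) ^ 2 ≤ ((Φ H).card : ℝ) := h2.trans h1
    have h4 : 0 < ((Φ H).card : ℝ) := lt_of_lt_of_le (by positivity) h3
    have h5 : (Φ H).Nonempty := by
      rw [← Finset.card_pos]
      exact_mod_cast h4
    refine (mper_lw_le hg1 h5).trans ?_
    have h6 : 1 / (2 * ε) ≤ Real.sqrt ((Φ H).card : ℝ) := by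
      apply Real.le_sqrt_of_sq_le h3
    rw [div_le_iff₀ (Real.sqrt_pos.2 h4)]
    rw [div_le_iff₀ (by positivity)] at h6
    linarith

end Pool.Agent.RSG
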