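import Pool.Agent.RSG.Defs

set_option autoImplicit false

/-!
# Module Walsh: expansion of a function of the signs in a window

`sg T h = -1` if `h ∈ T`, else `1`.
`walsh`: `∏_{h ∈ A} (1 + sg T h s (n+h)) = ∑_{S ⊆ A} ∏_{h ∈ S} sg T h s (n+h)` (`Finset.prod_one_add`), which is `2^|A|` if
`T = {h ∈ A : s (n+h) = -1}` and `0` for the other `T ⊆ A`.
`walsh_sq`: `∑_{T ⊆ A} (∑_{h ∈ A} sg T h g h)^2 = 2^|A| ∑ g h^2`: induction on `A` with `Finset.sum_powerset_insert`.
`walsh_abs`: Cauchy–Schwarz: `2^(-|A|) ∑_T |∑_h sg T h g h|/|A| ≤ 1/√|A|` if `|g| ≤ 1`.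
-/

open Filter Topology MeasureTheory ProbabilityTheory

namespace Pool.Agent.RSG

open Pool.Agent.GaussPret Pool.Agent.MRG

/-- the sign vector of the set `T`. -/
noncomputable def sg (T : Finset GaussianInt) (h : GaussianInt) : ℝ := if h ∈ T then -1 else 1

private theorem wal_prod {s : GaussianInt → ℝ} (hs : ∀ n, s n = 1 ∨ s n = -1) (A T : Finset GaussianInt)
    (hT : T ⊆ A) (n : GaussianInt) (B : Finset GaussianInt)
    (hB : ∀ h, h ∈ B ↔ h ∈ A ∧ s (n + h) = -1) :
    ∏ h ∈ A, (1 + sg T h * s (n + h)) = if T = B then 2 ^ A.card else 0 := by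
  split_ifs with hTB
  · subst hTB
    rw [Finset.prod_congr rfl (g := fun _ => (2 : ℝ)), Finset.prod_const]
    intro h hh
    rcases hs (n + h) with h1 | h1
    · have h2 : h ∉ T := fun h3 => by
        have := ((hB h).1 h3).2
        rw [h1] at this
        norm_num at this
      rw [sg, if_neg h2, h1]
      norm_num
    · have h2 : h ∈ T := (hB h).2 ⟨hh, h1⟩
      rw [sg, if_pos h2, h1]
      norm_num
  · have h1 : ∃ h ∈ A, ¬ (h ∈ T ↔ s (n + h) = -1) := by
      by_contra hcon
      push Not at hcon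
      apply hTB
      ext h
      rw [hB]
      constructor
      · exact fun h3 => ⟨hT h3, (hcon h (hT h3)).1 h3⟩
      · exact fun h3 => (hcon h h3.1).2 h3.2
    obtain ⟨h, hh, h2⟩ := h1
    refine Finset.prod_eq_zero hh ?_
    rcases hs (n + h) with h3 | h3
    · have h4 : h ∈ T := by
        by_contra h5
        apply h2
        rw [h3]
        constructor
        · exact fun h6 => absurd h6 h5
        · intro h6
          norm_num at h6
      rw [sg, if_pos h4, h3]
      norm_num
    · have h4 : h ∉ T := fun h5 => h2 ⟨fun _ => h3, fun _ => h5⟩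
      rw [sg, if_neg h4, h3]
      norm_num

open scoped Classical in
theorem walsh {s : GaussianInt → ℝ} (hs : ∀ n, s n = 1 ∨ s n = -1) (A : Finset GaussianInt)
    (G : Finset GaussianInt → ℝ) (n : GaussianInt) :
    G (A.filter (fun h => s (n + h) = -1)) =
      ∑ T ∈ A.powerset, ∑ S ∈ A.powerset, (1 / 2) ^ A.card * (∏ h ∈ S, sg T h) * G T * gS s S n := by
  have h1 : ∀ T ∈ A.powerset,
      ∑ S ∈ A.powerset, (1 / 2 : ℝ) ^ A.card * (∏ h ∈ S, sg T h) * G T * gS s S n =
        if T = A.filter (fun h => s (n + h) = -1) then G T else 0 := by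
    intro T hT
    have h2 : ∑ S ∈ A.powerset, (1 / 2 : ℝ) ^ A.card * (∏ h ∈ S, sg T h) * G T * gS s S n =
        (1 / 2 : ℝ) ^ A.card * G T * ∏ h ∈ A, (1 + sg T h * s (n + h)) := by
      rw [Finset.prod_one_add, Finset.mul_sum]
      refine Finset.sum_congr rfl fun S _ => ?_
      rw [Finset.prod_mul_distrib, gS]
      ring
    rw [h2, wal_prod hs A T (Finset.mem_powerset.1 hT) n (A.filter (fun h => s (n + h) = -1))
      (fun h => by rw [Finset.mem_filter])]
    split_ifs with h3
    · rw [mul_right_comm, ← mul_pow]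
      norm_num
    · rw [mul_zero]
  rw [Finset.sum_congr rfl h1, Finset.sum_ite_eq', if_pos]
  exact Finset.mem_powerset.2 (Finset.filter_subset _ _)

theorem walsh_sq (A : Finset GaussianInt) (g : GaussianInt → ℝ) :
    ∑ T ∈ A.powerset, (∑ h ∈ A, sg T h * g h) ^ 2 = 2 ^ A.card * ∑ h ∈ A, g h ^ 2 := by
  classical
  induction A using Finset.induction_on with
  | empty => simp
  | insert a A ha ih =>
    rw [Finset.sum_powerset_insert ha, Finset.card_insert_of_notMem ha, Finset.sum_insert ha,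
      pow_succ, ← Finset.sum_add_distrib]
    have h1 : ∀ T ∈ A.powerset,
        (∑ h ∈ insert a A, sg T h * g h) ^ 2 + (∑ h ∈ insert a A, sg (insert a T) h * g h) ^ 2 =
          2 * g a ^ 2 + 2 * (∑ h ∈ A, sg T h * g h) ^ 2 := by
      intro T hT
      have h2 : a ∉ T := fun h3 => ha (Finset.mem_powerset.1 hT h3)
      have h4 : ∑ h ∈ A, sg (insert a T) h * g h = ∑ h ∈ A, sg T h * g h := by
        refine Finset.sum_congr rfl fun h hh => ?_
        have h5 : h ≠ a := fun h6 => ha (h6 ▸ hh)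
        have h6 : (h ∈ insert a T) ↔ h ∈ T := by
          rw [Finset.mem_insert]
          exact ⟨fun h7 => h7.resolve_left h5, Or.inr⟩
        unfold sg
        rw [if_congr h6 rfl rfl]
      rw [Finset.sum_insert ha, Finset.sum_insert ha, h4]
      have h7 : sg T a = 1 := if_neg h2
      have h8 : sg (insert a T) a = -1 := if_pos (Finset.mem_insert_self a T)
      rw [h7, h8]
      ring
    rw [Finset.sum_congr rfl h1, Finset.sum_add_distrib, Finset.sum_const, Finset.card_powerset,
      nsmul_eq_mul, ← Finset.mul_sum, ih]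
    push_cast
    ring

theorem walsh_abs (A : Finset GaussianInt) (hA : A.Nonempty) (g : GaussianInt → ℝ)
    (hg : ∀ h ∈ A, |g h| ≤ 1) :
    (1 / 2) ^ A.card * ∑ T ∈ A.powerset, |avg A (fun h => sg T h * g h)| ≤
      1 / Real.sqrt A.card := by
  have hc : (0 : ℝ) < A.card := by exact_mod_cast hA.card_pos
  have hs0 : 0 < Real.sqrt A.card := Real.sqrt_pos.2 hc
  have h1 : (∑ T ∈ A.powerset, |∑ h ∈ A, sg T h * g h|) ^ 2 ≤
      (2 ^ A.card * Real.sqrt A.card) ^ 2 := by
    calc (∑ T ∈ A.powerset, |∑ h ∈ A, sg T h * g h|) ^ 2 ≤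
        (A.powerset.card : ℝ) * ∑ T ∈ A.powerset, |∑ h ∈ A, sg T h * g h| ^ 2 :=
          sq_sum_le_card_mul_sum_sq
      _ = 2 ^ A.card * (2 ^ A.card * ∑ h ∈ A, g h ^ 2) := by
          rw [Finset.card_powerset, ← walsh_sq]
          push_cast
          congr 1
          exact Finset.sum_congr rfl fun T _ => sq_abs _
      _ ≤ 2 ^ A.card * (2 ^ A.card * A.card) := by
          have h2 : ∑ h ∈ A, g h ^ 2 ≤ (A.card : ℝ) := by
            calc ∑ h ∈ A, g h ^ 2 ≤ ∑ h ∈ A, (1 : ℝ) := by
                  refine Finset.sum_le_sum fun h hh => ?_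
                  rw [← sq_abs]
                  exact pow_le_one₀ (abs_nonneg _) (hg h hh)
              _ = A.card := by rw [Finset.sum_const, nsmul_eq_mul, mul_one]
          gcongr
      _ = (2 ^ A.card * Real.sqrt A.card) ^ 2 := by
          rw [mul_pow, Real.sq_sqrt hc.le]
          ring
  have h2 : ∑ T ∈ A.powerset, |∑ h ∈ A, sg T h * g h| ≤ 2 ^ A.card * Real.sqrt A.card :=
    abs_le_of_sq_le_sq' h1 (by positivity) |>.2
  have h3 : ∑ T ∈ A.powerset, |avg A (fun h => sg T h * g h)| =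
      (∑ T ∈ A.powerset, |∑ h ∈ A, sg T h * g h|) / A.card := by
    rw [Finset.sum_div]
    refine Finset.sum_congr rfl fun T _ => ?_
    rw [avg, abs_div, abs_of_pos hc]
  rw [h3]
  calc (1 / 2 : ℝ) ^ A.card * ((∑ T ∈ A.powerset, |∑ h ∈ A, sg T h * g h|) / A.card) ≤
      (1 / 2 : ℝ) ^ A.card * ((2 ^ A.card * Real.sqrt A.card) / A.card) := by gcongr
    _ = ((1 / 2 : ℝ) * 2) ^ A.card * (Real.sqrt A.card / A.card) := by
        rw [mul_pow]
        ring
    _ = Real.sqrt A.card / A.card := by norm_num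
    _ = 1 / Real.sqrt A.card := by
        rw [div_eq_div_iff hc.ne' hs0.ne', one_mul, Real.mul_self_sqrt hc.le]

end Pool.Agent.RSG
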