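import Pool.Agent.RSG.Vdc
import Pool.Agent.RSG.Walsh

set_option autoImplicit false

/-!
# Module DetMain: a function with uncorrelated signs satisfies Q1 and Q2

`lim_window`: for a finite set `A`, `g` periodic mod `Q`, the average over `Φ N` of `|avg A (s(n+h) g(n+h)) - P|` converges to
`mper Q (n ↦ (1/2)^|A| ∑_{T ⊆ A} |avg A (sg T h g(n+h)) - P|)`: `walsh` with `G T = |avg A (sg T h g(n+h)) - P|` (for
`T = {h : s(n+h) = -1}` one has `sg T h = s (n+h)` on `A`), `noCorr_per` for the terms with `S ≠ ∅`, `avg_per` for `S = ∅`.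
`det_main`: if `PP f ≠ 0`: `pret_main`; if `PP |f| = 0`: `zero_main`; otherwise copy the proof of `pret_main`: for `ε` take `Q, g`
from `exists_per` for `|f|` (`isRayChar_one`, `summable_of_PP hf.abs`), `F n = s n * g n`, `sum_cmp` (with `g := F`,
`|f n - F n| = ||f n| - g n|` for `n ≠ 0`), `y H = mper Q (...)` with `P = PP f = 0`, `|y H| ≤ 1/√|Φ H| → 0` (`walsh_abs`).
-/

open Filter Topology MeasureTheory ProbabilityTheory

namespace Pool.Agent.RSG

open Pool.Agent.GaussPret Pool.Agent.MRG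

/-- the limit of the averages of the window. -/
noncomputable def lw (A : Finset GaussianInt) (g : GaussianInt → ℝ) (P : ℝ) (n : GaussianInt) : ℝ :=
  (1 / 2) ^ A.card * ∑ T ∈ A.powerset, |avg A (fun h => sg T h * g (n + h)) - P|

theorem avg_sum {ι : Type*} (B : Finset GaussianInt) (I : Finset ι) (F : ι → GaussianInt → ℝ) :
    avg B (fun n => ∑ i ∈ I, F i n) = ∑ i ∈ I, avg B (F i) := by
  unfold avg
  rw [Finset.sum_comm, Finset.sum_div]

theorem avg_smul (B : Finset GaussianInt) (c : ℝ) (F : GaussianInt → ℝ) :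
    avg B (fun n => c * F n) = c * avg B F := by
  unfold avg
  rw [← Finset.mul_sum, mul_div_assoc]

theorem mper_sum {Q : ℕ} [NeZero Q] {ι : Type*} (I : Finset ι) (F : ι → GaussianInt → ℝ) :
    mper Q (fun n => ∑ i ∈ I, F i n) = ∑ i ∈ I, mper Q (F i) := by
  unfold mper
  rw [Finset.sum_comm, Finset.sum_div]

theorem mper_smul {Q : ℕ} [NeZero Q] (c : ℝ) (F : GaussianInt → ℝ) :
    mper Q (fun n => c * F n) = c * mper Q F := by
  unfold mper
  rw [← Finset.mul_sum, mul_div_assoc]

theorem per_window {Q : ℕ} {g : GaussianInt → ℝ} (hg : Per Q g) (P : ℝ)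
    (A T : Finset GaussianInt) :
    Per Q (fun n => |avg A (fun h => sg T h * g (n + h)) - P|) := by
  intro a b
  have : (fun h => sg T h * g (a + (Q : GaussianInt) * b + h)) = fun h => sg T h * g (a + h) := by
    funext h
    have e : a + (Q : GaussianInt) * b + h = (a + h) + (Q : GaussianInt) * b := by ring
    rw [e, hg]
  show |avg A (fun h => sg T h * g (a + (Q : GaussianInt) * b + h)) - P| = _
  rw [this]

theorem tendsto_avg_per {Φ : ℕ → Finset GaussianInt} (hΦ : IsDilatedFolner Φ) {Q : ℕ} [NeZero Q]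
    {g : GaussianInt → ℝ} (hg : Per Q g) :
    Tendsto (fun N => avg (Φ N) g) atTop (𝓝 (mper Q g)) := by
  obtain ⟨U, k, hU, hF, hV, hk, hkt, hΦ⟩ := hΦ
  rw [Metric.tendsto_atTop]
  intro ε hε
  obtain ⟨N₀, hN₀⟩ := eventually_atTop.1 (avg_per hU hF hV hkt hΦ Q g hg (ε / 2) (by positivity))
  refine ⟨N₀, fun N hN => ?_⟩
  have h := hN₀ N hN 0
  simp only [zero_add] at h
  rw [Real.dist_eq]
  linarith

theorem lim_window {s : GaussianInt → ℝ} (hs : ∀ n, s n = 1 ∨ s n = -1) (hn : NoCorr s)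
    {Q : ℕ} [NeZero Q] {g : GaussianInt → ℝ} (hg : Per Q g) (P : ℝ) (A : Finset GaussianInt)
    {Φ : ℕ → Finset GaussianInt} (hΦ : IsDilatedFolner Φ) :
    Tendsto (fun N => avg (Φ N) (fun n => |avg A (fun h => s (n + h) * g (n + h)) - P|)) atTop
      (𝓝 (mper Q (lw A g P))) := by
  classical
  -- expansion
  have hexp : ∀ N, avg (Φ N) (fun n => |avg A (fun h => s (n + h) * g (n + h)) - P|) =
      ∑ T ∈ A.powerset, ∑ S ∈ A.powerset, (1 / 2) ^ A.card * (∏ h ∈ S, sg T h) *
        avg (Φ N) (fun n => |avg A (fun h => sg T h * g (n + h)) - P| * gS s S n) := by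
    intro N
    have h1 : (fun n => |avg A (fun h => s (n + h) * g (n + h)) - P|) = fun n =>
        ∑ T ∈ A.powerset, ∑ S ∈ A.powerset, (1 / 2) ^ A.card * (∏ h ∈ S, sg T h) *
          (|avg A (fun h => sg T h * g (n + h)) - P| * gS s S n) := by
      funext n
      have h2 := walsh hs A (fun T => |avg A (fun h => sg T h * g (n + h)) - P|) n
      have h3 : avg A (fun h => sg (A.filter (fun h => s (n + h) = -1)) h * g (n + h)) =
          avg A (fun h => s (n + h) * g (n + h)) := by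
        unfold avg
        congr 1
        refine Finset.sum_congr rfl fun h hh => ?_
        show sg (A.filter (fun h => s (n + h) = -1)) h * g (n + h) = s (n + h) * g (n + h)
        congr 1
        unfold sg
        rcases hs (n + h) with h4 | h4
        · rw [h4, if_neg]
          rw [Finset.mem_filter, h4]
          norm_num
        · rw [h4, if_pos]
          rw [Finset.mem_filter]
          exact ⟨hh, h4⟩
      rw [h3] at h2
      rw [h2]
      refine Finset.sum_congr rfl fun T _ => Finset.sum_congr rfl fun S _ => ?_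
      ring
    rw [h1, avg_sum]
    refine Finset.sum_congr rfl fun T _ => ?_
    rw [avg_sum]
    refine Finset.sum_congr rfl fun S _ => ?_
    rw [avg_smul]
  have hlim : mper Q (lw A g P) = ∑ T ∈ A.powerset, ∑ S ∈ A.powerset,
      (if S = ∅ then (1 / 2) ^ A.card *
        mper Q (fun n => |avg A (fun h => sg T h * g (n + h)) - P|) else 0) := by
    have h1 : lw A g P = fun n => (1 / 2) ^ A.card *
        ∑ T ∈ A.powerset, |avg A (fun h => sg T h * g (n + h)) - P| := rfl
    rw [h1, mper_smul, mper_sum, Finset.mul_sum]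
    refine Finset.sum_congr rfl fun T _ => ?_
    rw [Finset.sum_ite_eq' A.powerset ∅, if_pos (Finset.empty_mem_powerset A)]
  rw [hlim]
  simp only [hexp]
  refine tendsto_finsetSum _ fun T _ => tendsto_finsetSum _ fun S _ => ?_
  by_cases hS : S = ∅
  · subst hS
    rw [if_pos rfl]
    have h1 := tendsto_avg_per hΦ (per_window hg P A T)
    have h2 := h1.const_mul ((1 / 2 : ℝ) ^ A.card)
    refine h2.congr fun N => ?_
    simp [gS]
  · rw [if_neg hS]
    have h1 := noCorr_per hs hn (per_window hg P A T) (Finset.nonempty_iff_ne_empty.2 hS) hΦ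
    have h2 := h1.const_mul ((1 / 2 : ℝ) ^ A.card * (∏ h ∈ S, sg T h))
    rw [mul_zero] at h2
    exact h2

theorem mper_lw_le {Q : ℕ} [NeZero Q] {g : GaussianInt → ℝ} (hg1 : ∀ n, |g n| ≤ 1)
    {A : Finset GaussianInt} (hA : A.Nonempty) :
    |mper Q (lw A g 0)| ≤ 1 / Real.sqrt A.card := by
  apply mper_abs_le
  intro n
  have h1 := walsh_abs A hA (fun h => g (n + h)) (fun h _ => hg1 _)
  unfold lw
  simp only [sub_zero]
  rw [abs_of_nonneg (by positivity)]
  exact h1

theorem det_main {s f : GaussianInt → ℝ} (hs : ∀ n, s n = 1 ∨ s n = -1) (hn : NoCorr s)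
    (hf : IsBCM f) (hfs : ∀ n, n ≠ 0 → f n = s n * |f n|)
    {Φ : ℕ → Finset GaussianInt} (hΦ : IsDilatedFolner Φ) : ShortAvg f Φ := by
  by_cases hPP : PP f = 0
  swap
  · refine pret_main hf isRayChar_one one_pos ?_ hΦ
    simpa only [mul_one] using summable_of_PP hf hPP
  by_cases hPPa : PP (fun n => |f n|) = 0
  · exact zero_main hf hPPa hΦ
  have hΦ' := hΦ
  obtain ⟨U, k, hU, hF, hV, hk, hkt, hΦ⟩ := hΦ
  obtain ⟨ρ, hρ0, hρ⟩ := hU.exists_pos_norm_le
  have hVr : 0 < (volume U).toReal := ENNReal.toReal_pos hV.ne' hU.measure_lt_top.ne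
  have hcard := card_lower hU hF hV hkt hΦ
  unfold ShortAvg
  rw [hPP]
  set V := (volume U).toReal with hVdef
  apply conv_lemma _ (1 + 2 * (1 + (ρ + 1) ^ 2) / V) (by positivity)
  intro ε hε
  have hsum : Summable (fun p : P1 => (1 - |f p| * (1 : ℝ)) / nm (p : GaussianInt)) := by
    simpa only [mul_one] using summable_of_PP hf.abs hPPa
  obtain ⟨Q, hQ, g, hper, hg1, hfg, -⟩ :=
    exists_per hf.abs isRayChar_one one_pos hsum ε hε
  have hFg : ∀ r : ℝ, GaussPret.SS (fun n => |f n - s n * g n|) r ≤ ε * r ^ 2 := by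
    intro r
    refine le_trans (le_of_eq ?_) (hfg r)
    unfold GaussPret.SS
    refine Finset.sum_congr rfl fun n hn => ?_
    have h1 := hfs n (mem_ball.1 hn).1
    have h3 : f n - s n * g n = s n * (|f n| - g n) := by rw [mul_sub, ← h1]
    show |f n - s n * g n| = abs (abs (f n) - g n)
    rw [h3, abs_mul]
    rcases hs n with h2 | h2
    · rw [h2]; simp
    · rw [h2]; simp
  have hF1 : ∀ n, |s n * g n| ≤ 1 := by
    intro n
    rw [abs_mul]
    rcases hs n with h2 | h2
    · rw [h2]; simpa using hg1 n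
    · rw [h2]; simpa using hg1 n
  refine ⟨fun H => mper Q (lw (Φ H) g 0), ?_, ?_⟩
  · intro H
    have havg := (lim_window hs hn hper 0 (Φ H) hΦ')
    have havg' : ∀ᶠ N in atTop, |avg (Φ N) (fun n => |avg (Φ H) (fun h => s (n + h) * g (n + h)) - 0|)
        - mper Q (lw (Φ H) g 0)| ≤ ε := by
      have := (Metric.tendsto_nhds.1 havg) ε hε
      filter_upwards [this] with N hN
      rw [Real.dist_eq] at hN
      exact hN.le
    obtain ⟨RA, hRA0, hRA⟩ : ∃ RA : ℝ, 0 ≤ RA ∧ ∀ n ∈ Φ H, ‖GaussianInt.toComplex n‖ ≤ RA := by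
      obtain ⟨R, hR⟩ := ((Φ H).finite_toSet.image (fun n => ‖GaussianInt.toComplex n‖)).bddAbove
      exact ⟨max R 0, le_max_right _ _, fun n hn => (hR ⟨n, hn, rfl⟩).trans (le_max_left _ _)⟩
    filter_upwards [havg', hcard, hkt.eventually_ge_atTop 1, hkt.eventually_ge_atTop RA,
      hkt.eventually_ge_atTop (2 * ((Φ H).card : ℝ) / ε)] with N h1 h2 h3 h4 h5
    have hkpos : 0 < k N := by linarith
    have hk2 : 0 < k N ^ 2 := by positivity
    have hCpos : 0 < ((Φ N).card : ℝ) := lt_of_lt_of_le (by positivity) h2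
    have hRB : ∀ n ∈ Φ N, ‖GaussianInt.toComplex n‖ ≤ ρ * k N := by
      intro n hn
      by_cases h0 : n = 0
      · rw [h0, map_zero, norm_zero]; positivity
      · obtain ⟨u, hu, hnu⟩ := (hΦ N n h0).1 hn
        rw [hnu, norm_mul, Complex.norm_real, Real.norm_eq_abs, abs_of_pos hkpos, mul_comm]
        exact mul_le_mul_of_nonneg_right (hρ u hu) hkpos.le
    have hcmp := sum_cmp (P := 0) (fun n hn => hf.abs_le_one hn) hF1 (Φ H) (Φ N) RA
      (ρ * k N) (hFg _) hRA hRB
    set S1 := ∑ n ∈ Φ N, |avg (win (Φ H) n) f - 0| with hS1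
    set S2 := ∑ n ∈ Φ N, |avg (Φ H) (fun h => s (n + h) * g (n + h)) - 0| with hS2
    have h6 : |avg (Φ N) (fun n => |avg (win (Φ H) n) f - 0|)
        - avg (Φ N) (fun n => |avg (Φ H) (fun h => s (n + h) * g (n + h)) - 0|)|
        ≤ 2 * (1 + (ρ + 1) ^ 2) / V * ε := by
      rw [avg, avg, ← hS1, ← hS2, ← sub_div, abs_div, abs_of_pos hCpos, div_le_iff₀ hCpos]
      refine hcmp.trans ?_
      have h7 : 2 * ((Φ H).card : ℝ) ≤ ε * k N ^ 2 := by
        rw [div_le_iff₀ hε] at h5
        nlinarith [mul_le_mul_of_nonneg_left h3 (by positivity : 0 ≤ ε * k N)]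
      have h8 : ε * (ρ * k N + RA) ^ 2 ≤ ε * ((ρ + 1) ^ 2 * k N ^ 2) := by
        apply mul_le_mul_of_nonneg_left _ hε.le
        rw [← mul_pow]
        apply pow_le_pow_left₀ (by positivity)
        linarith
      have h10 : 2 * (1 + (ρ + 1) ^ 2) / V * ε * (k N ^ 2 * (V / 2)) ≤
          2 * (1 + (ρ + 1) ^ 2) / V * ε * ((Φ N).card : ℝ) := by
        apply mul_le_mul_of_nonneg_left h2
        positivity
      have h11 : 2 * (1 + (ρ + 1) ^ 2) / V * ε * (k N ^ 2 * (V / 2))
          = ε * k N ^ 2 + ε * ((ρ + 1) ^ 2 * k N ^ 2) := by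
        field_simp
      linarith
    have h12 : avg (Φ N) (fun n => |avg (win (Φ H) n) f - 0|)
        - mper Q (lw (Φ H) g 0)
        = (avg (Φ N) (fun n => |avg (win (Φ H) n) f - 0|)
        - avg (Φ N) (fun n => |avg (Φ H) (fun h => s (n + h) * g (n + h)) - 0|))
        + (avg (Φ N) (fun n => |avg (Φ H) (fun h => s (n + h) * g (n + h)) - 0|)
          - mper Q (lw (Φ H) g 0)) := by ring
    rw [h12]
    refine (abs_add_le _ _).trans ?_
    calc _ ≤ 2 * (1 + (ρ + 1) ^ 2) / V * ε + ε := add_le_add h6 h1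
      _ = (1 + 2 * (1 + (ρ + 1) ^ 2) / V) * ε := by ring
  · have hk1 : ∀ᶠ H in atTop, 1 / (2 * ε) ≤ k H := hkt.eventually_ge_atTop _
    have hk2 : Tendsto (fun H => k H ^ 2 * (V / 2)) atTop atTop :=
      ((tendsto_pow_atTop two_ne_zero).comp hkt).atTop_mul_const (by positivity)
    have hk3 := hk2.eventually_ge_atTop ((1 / (2 * ε)) ^ 2)
    filter_upwards [hcard, hk3] with H h1 h2
    have h3 : (1 / (2 * ε)) ^ 2 ≤ ((Φ H).card : ℝ) := h2.trans h1
    have h4 : 0 < ((Φ H).card : ℝ) := lt_of_lt_of_le (by positivity) h3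
    have h5 : (Φ H).Nonempty := by
      rw [← Finset.card_pos]
      exact_mod_cast h4
    refine (mper_lw_le hg1 h5).trans ?_
    have h6 : 1 / (2 * ε) ≤ Real.sqrt ((Φ H).card : ℝ) := by
      apply Real.le_sqrt_of_sq_le h3
    rw [div_le_iff₀ (Real.sqrt_pos.2 h4)]
    rw [div_le_iff₀ (by positivity)] at h6
    linarith

end Pool.Agent.RSG
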