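import Pool.Agent.RSG.Defs

set_option autoImplicit false

/-!
# Module Exp: second moment for products of independent signs

* `XT_mul`: `X_T X_U = X_{T Δ U}` since `X_p^2 = 1`.
* `integral_XT`: `E X_T = m_T` (Mathlib: `iIndepFun.integral_fun_prod_eq_prod_integral` for the subtype `T`; restrict
  independence with `iIndepFun.precomp` along `Subtype.val : T → ι`).
* `cov_zero`: if `V ∪ V'` lies outside `A`, `L ∪ L'` inside `A` and `L, L'` are disjoint, then
  `E[(X_V X_L - m_L X_V)(X_{V'} X_{L'} - m_{L'} X_{V'})] = 0`: expand; all four products are `± m_{VΔV'} m_L m_{L'}`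
  (`V Δ V'`, `L`, `L'` pairwise disjoint, so `m_{(VΔV') ∪ L ∪ L'} = m_{VΔV'} m_L m_{L'}`).
* `second_moment`: expand the square; pairs with disjoint `L` contribute `0`, the others at most `4`
  (`|X_V X_L - m_L X_V| ≤ 2`, `|m_L| ≤ 1`).
-/

open Filter Topology MeasureTheory ProbabilityTheory
open scoped symmDiff

namespace Pool.Agent.RSG

variable {Ω ι : Type*} [MeasurableSpace Ω] {μ : Measure Ω} [IsProbabilityMeasure μ]
  {X : ι → Ω → ℝ}

omit [IsProbabilityMeasure μ] in
theorem XT_val (hX : Signs X μ) (T : Finset ι) (ω : Ω) : XT X T ω = 1 ∨ XT X T ω = -1 := by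
  classical
  unfold XT
  induction T using Finset.induction_on with
  | empty => left; simp
  | insert a s ha ih =>
    rw [Finset.prod_insert ha]
    rcases hX.val a ω with h | h <;> rcases ih with h' | h' <;> rw [h, h'] <;> norm_num

omit [IsProbabilityMeasure μ] in
theorem XT_abs (hX : Signs X μ) (T : Finset ι) (ω : Ω) : |XT X T ω| = 1 := by
  rcases XT_val hX T ω with h | h <;> rw [h] <;> norm_num

omit [IsProbabilityMeasure μ] in
theorem XT_meas (hX : Signs X μ) (T : Finset ι) : Measurable (XT X T) := by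
  unfold XT
  exact Finset.measurable_fun_prod T fun p _ => hX.meas p

omit [IsProbabilityMeasure μ] in
theorem XT_mul [DecidableEq ι] (hX : Signs X μ) (T U : Finset ι) (ω : Ω) :
    XT X T ω * XT X U ω = XT X (T ∆ U) ω := by
  have h1 : XT X T ω = XT X (T \ U) ω * XT X (T ∩ U) ω := by
    unfold XT
    rw [mul_comm]
    exact (Finset.prod_inter_mul_prod_sdiff T U _).symm
  have h2 : XT X U ω = XT X (U \ T) ω * XT X (T ∩ U) ω := by
    unfold XT
    rw [mul_comm, Finset.inter_comm]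
    exact (Finset.prod_inter_mul_prod_sdiff U T _).symm
  have h3 : XT X (T ∆ U) ω = XT X (T \ U) ω * XT X (U \ T) ω := by
    unfold XT
    rw [symmDiff_def, Finset.sup_eq_union, Finset.prod_union]
    exact disjoint_sdiff_sdiff
  have h4 : XT X (T ∩ U) ω * XT X (T ∩ U) ω = 1 := by
    rcases XT_val hX (T ∩ U) ω with h | h <;> rw [h] <;> norm_num
  rw [h1, h2, h3]
  calc XT X (T \ U) ω * XT X (T ∩ U) ω * (XT X (U \ T) ω * XT X (T ∩ U) ω) =
      XT X (T \ U) ω * XT X (U \ T) ω * (XT X (T ∩ U) ω * XT X (T ∩ U) ω) := by ring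
    _ = _ := by rw [h4, mul_one]

theorem mean_abs_le (hX : Signs X μ) (p : ι) : |∫ ω, X p ω ∂μ| ≤ 1 := by
  have h := norm_integral_le_of_norm_le_const (μ := μ) (f := X p) (C := 1)
    (Eventually.of_forall fun ω => by
      rw [Real.norm_eq_abs]
      rcases hX.val p ω with h | h <;> rw [h] <;> norm_num)
  simpa using h

theorem mT_abs_le (hX : Signs X μ) (T : Finset ι) : |mT X μ T| ≤ 1 := by
  unfold mT
  rw [Finset.abs_prod]
  exact Finset.prod_le_one (fun p _ => abs_nonneg _) fun p _ => mean_abs_le hX p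

omit [IsProbabilityMeasure μ] in
theorem integral_XT (hX : Signs X μ) (T : Finset ι) : ∫ ω, XT X T ω ∂μ = mT X μ T := by
  have h1 : iIndepFun (fun i : T => X i) μ :=
    hX.indep.precomp (g := ((↑) : T → ι)) Subtype.val_injective
  have h2 := h1.integral_fun_prod_eq_prod_integral fun i => (hX.meas i).aestronglyMeasurable
  unfold XT mT
  calc ∫ ω, ∏ p ∈ T, X p ω ∂μ = ∫ ω, ∏ i : T, X i ω ∂μ := by
        refine integral_congr_ae (Eventually.of_forall fun ω => ?_)
        exact (Finset.prod_coe_sort T (fun p => X p ω)).symm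
    _ = ∏ i : T, ∫ ω, X i ω ∂μ := h2
    _ = _ := Finset.prod_coe_sort T (fun p => ∫ ω, X p ω ∂μ)

theorem XT_integrable (hX : Signs X μ) (T : Finset ι) : Integrable (XT X T) μ :=
  Integrable.of_bound (XT_meas hX T).aestronglyMeasurable 1 (Eventually.of_forall fun ω => by
    rw [Real.norm_eq_abs, XT_abs hX])

theorem cov_zero [DecidableEq ι] (hX : Signs X μ) (A : Set ι) {V V' L L' : Finset ι}
    (hV : ∀ p ∈ V, p ∉ A) (hV' : ∀ p ∈ V', p ∉ A) (hL : ∀ p ∈ L, p ∈ A) (hL' : ∀ p ∈ L', p ∈ A)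
    (hd : Disjoint L L') :
    ∫ ω, (XT X V ω * XT X L ω - mT X μ L * XT X V ω) *
      (XT X V' ω * XT X L' ω - mT X μ L' * XT X V' ω) ∂μ = 0 := by
  set W := V ∆ V' with hW
  have hWA : ∀ p ∈ W, p ∉ A := by
    intro p hp
    rw [hW, Finset.mem_symmDiff] at hp
    rcases hp with h | h
    · exact hV p h.1
    · exact hV' p h.1
  have hdis : ∀ S : Finset ι, (∀ p ∈ S, p ∈ A) → Disjoint W S := by
    intro S hS
    rw [Finset.disjoint_left]
    exact fun p h1 h2 => hWA p h1 (hS p h2)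
  have hu : ∀ S U : Finset ι, Disjoint S U → ∀ ω, XT X S ω * XT X U ω = XT X (S ∪ U) ω := by
    intro S U h ω
    unfold XT
    exact (Finset.prod_union h).symm
  have hm : ∀ S U : Finset ι, Disjoint S U → mT X μ (S ∪ U) = mT X μ S * mT X μ U := by
    intro S U h
    unfold mT
    exact Finset.prod_union h
  have d1 := hdis L hL
  have d2 := hdis L' hL'
  have d3 : Disjoint W (L ∪ L') := hdis _ fun p hp => by
    rcases Finset.mem_union.1 hp with h | h
    · exact hL p h
    · exact hL' p h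
  have hpt : ∀ ω, (XT X V ω * XT X L ω - mT X μ L * XT X V ω) *
      (XT X V' ω * XT X L' ω - mT X μ L' * XT X V' ω) =
      XT X (W ∪ (L ∪ L')) ω - mT X μ L' * XT X (W ∪ L) ω - mT X μ L * XT X (W ∪ L') ω +
        mT X μ L * mT X μ L' * XT X W ω := by
    intro ω
    rw [← hu _ _ d3, ← hu _ _ hd, ← hu _ _ d1, ← hu _ _ d2, hW, ← XT_mul hX]
    ring
  have i1 := XT_integrable hX (W ∪ (L ∪ L'))
  have i2 := (XT_integrable hX (W ∪ L)).const_mul (mT X μ L')
  have i3 := (XT_integrable hX (W ∪ L')).const_mul (mT X μ L)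
  have i4 := (XT_integrable hX W).const_mul (mT X μ L * mT X μ L')
  have i12 : Integrable (fun ω => XT X (W ∪ (L ∪ L')) ω - mT X μ L' * XT X (W ∪ L) ω) μ :=
    i1.sub i2
  have i123 : Integrable (fun ω => XT X (W ∪ (L ∪ L')) ω - mT X μ L' * XT X (W ∪ L) ω -
      mT X μ L * XT X (W ∪ L') ω) μ := i12.sub i3
  calc ∫ ω, (XT X V ω * XT X L ω - mT X μ L * XT X V ω) *
      (XT X V' ω * XT X L' ω - mT X μ L' * XT X V' ω) ∂μ =
      ∫ ω, (XT X (W ∪ (L ∪ L')) ω - mT X μ L' * XT X (W ∪ L) ω - mT X μ L * XT X (W ∪ L') ω +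
        mT X μ L * mT X μ L' * XT X W ω) ∂μ :=
        integral_congr_ae (Eventually.of_forall hpt)
    _ = 0 := by
      rw [integral_add i123 i4, integral_sub i12 i3, integral_sub i1 i2,
        integral_const_mul, integral_const_mul, integral_const_mul, integral_XT hX, integral_XT hX,
        integral_XT hX, integral_XT hX, hm _ _ d3, hm _ _ hd, hm _ _ d1, hm _ _ d2]
      ring

open scoped Classical in
theorem second_moment (hX : Signs X μ) {α : Type*} (B : Finset α) (V L : α → Finset ι) (A : Set ι)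
    (hV : ∀ n ∈ B, ∀ p ∈ V n, p ∉ A) (hL : ∀ n ∈ B, ∀ p ∈ L n, p ∈ A) :
    ∫ ω, (∑ n ∈ B, (XT X (V n) ω * XT X (L n) ω - mT X μ (L n) * XT X (V n) ω)) ^ 2 ∂μ ≤
      4 * (((B ×ˢ B).filter (fun x => ¬ Disjoint (L x.1) (L x.2))).card : ℝ) := by
  set Y : α → Ω → ℝ := fun n ω => XT X (V n) ω * XT X (L n) ω - mT X μ (L n) * XT X (V n) ω with hY
  have hYm : ∀ n, Measurable (Y n) := fun n =>
    ((XT_meas hX (V n)).mul (XT_meas hX (L n))).sub ((XT_meas hX (V n)).const_mul _)
  have hYb : ∀ n ω, |Y n ω| ≤ 2 := by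
    intro n ω
    have h1 : |XT X (V n) ω * XT X (L n) ω| = 1 := by
      rw [abs_mul, XT_abs hX, XT_abs hX, mul_one]
    have h2 : |mT X μ (L n) * XT X (V n) ω| ≤ 1 := by
      rw [abs_mul, XT_abs hX, mul_one]
      exact mT_abs_le hX _
    refine (abs_sub _ _).trans ?_
    linarith
  have hYY : ∀ n m ω, |Y n ω * Y m ω| ≤ 4 := by
    intro n m ω
    rw [abs_mul]
    calc |Y n ω| * |Y m ω| ≤ 2 * 2 := mul_le_mul (hYb n ω) (hYb m ω) (abs_nonneg _) (by norm_num)
      _ = 4 := by norm_num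
  have hYi : ∀ n m, Integrable (fun ω => Y n ω * Y m ω) μ := fun n m =>
    Integrable.of_bound ((hYm n).mul (hYm m)).aestronglyMeasurable 4
      (Eventually.of_forall fun ω => by
        rw [Real.norm_eq_abs]
        exact hYY n m ω)
  have h1 : ∀ ω, (∑ n ∈ B, Y n ω) ^ 2 = ∑ x ∈ B ×ˢ B, Y x.1 ω * Y x.2 ω := by
    intro ω
    rw [sq, Finset.sum_mul_sum, Finset.sum_product]
  have h2 : ∫ ω, (∑ n ∈ B, Y n ω) ^ 2 ∂μ = ∑ x ∈ B ×ˢ B, ∫ ω, Y x.1 ω * Y x.2 ω ∂μ := by
    rw [integral_congr_ae (Eventually.of_forall h1)]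
    exact integral_finsetSum _ fun x _ => hYi x.1 x.2
  have h3 : ∑ x ∈ B ×ˢ B, ∫ ω, Y x.1 ω * Y x.2 ω ∂μ ≤
      ∑ x ∈ B ×ˢ B, if ¬ Disjoint (L x.1) (L x.2) then (4 : ℝ) else 0 := by
    refine Finset.sum_le_sum fun x hx => ?_
    rw [Finset.mem_product] at hx
    by_cases hd : Disjoint (L x.1) (L x.2)
    · rw [if_neg (not_not.2 hd)]
      exact (cov_zero hX A (hV _ hx.1) (hV _ hx.2) (hL _ hx.1) (hL _ hx.2) hd).le
    · rw [if_pos hd]
      have h4 := norm_integral_le_of_norm_le_const (μ := μ) (f := fun ω => Y x.1 ω * Y x.2 ω)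
        (C := 4) (Eventually.of_forall fun ω => by
          rw [Real.norm_eq_abs]
          exact hYY _ _ ω)
      rw [Real.norm_eq_abs] at h4
      simp only [probReal_univ, mul_one] at h4
      exact (le_abs_self _).trans h4
  rw [h2]
  refine h3.trans (le_of_eq ?_)
  rw [← Finset.sum_filter, Finset.sum_const, nsmul_eq_mul]
  ring

end Pool.Agent.RSG
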