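import Pool.Agent.RSG.AE
import Pool.Agent.RSG.DetMain

set_option autoImplicit false

/-!
# Module Main: random sign twists

`exists_twist`: `f n = XT X (OD n) ω * f0 n` is multiplicative (`OD_mul`, `XT_mul`), bounded, `f(i) = 1`, and `f p = X p ω f0 p`.
`sign_eq`: `X' p = τ p X p`, `τ p = 1` if `0 ≤ f0 p`, else `-1`; then `f p = X' p ω |f p|` for `p : P1`; by
`UniqueFactorizationMonoid.induction_on_prime`, `f n = XT X' (OD n) ω * |f n|` for `n ≠ 0`.
`main`: `ae_noCorr` for `X'` (`|E X'| = |E X|`), `det_main`.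
-/

open Filter Topology MeasureTheory ProbabilityTheory
open scoped symmDiff

namespace Pool.Agent.RSG

open Pool.Agent.GaussPret Pool.Agent.MRG

variable {Ω : Type*} [MeasurableSpace Ω] {μ : Measure Ω} [IsProbabilityMeasure μ]
  {X : P1 → Ω → ℝ}

private theorem XT_pm {Ω ι : Type*} {X : ι → Ω → ℝ} (hX : ∀ p ω, X p ω = 1 ∨ X p ω = -1)
    (T : Finset ι) (ω : Ω) : XT X T ω = 1 ∨ XT X T ω = -1 := by
  classical
  unfold XT
  induction T using Finset.induction_on with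
  | empty => left; rw [Finset.prod_empty]
  | insert p T hp ih =>
    rw [Finset.prod_insert hp]
    rcases hX p ω with h | h <;> rcases ih with h' | h' <;> rw [h, h'] <;> norm_num

private theorem XT_symm {Ω ι : Type*} [DecidableEq ι] {X : ι → Ω → ℝ} (hX : ∀ p ω, X p ω = 1 ∨ X p ω = -1)
    (S T : Finset ι) (ω : Ω) : XT X (S ∆ T) ω = XT X S ω * XT X T ω := by
  unfold XT
  have hd : Disjoint (S \ T) (T \ S) := disjoint_sdiff_sdiff
  have e : S ∆ T = (S \ T) ∪ (T \ S) := rfl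
  have h1 : (∏ p ∈ S \ T, X p ω) * ∏ p ∈ S ∩ T, X p ω = ∏ p ∈ S, X p ω := by
    rw [mul_comm, Finset.prod_inter_mul_prod_sdiff]
  have h2 : (∏ p ∈ T \ S, X p ω) * ∏ p ∈ S ∩ T, X p ω = ∏ p ∈ T, X p ω := by
    rw [Finset.inter_comm, mul_comm, Finset.prod_inter_mul_prod_sdiff]
  have h3 : (∏ p ∈ S ∩ T, X p ω) * ∏ p ∈ S ∩ T, X p ω = 1 := by
    have := XT_pm hX (S ∩ T) ω
    unfold XT at this
    rcases this with h | h <;> rw [h] <;> norm_num
  rw [e, Finset.prod_union hd, ← h1, ← h2]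
  calc (∏ p ∈ S \ T, X p ω) * ∏ p ∈ T \ S, X p ω =
      (∏ p ∈ S \ T, X p ω) * (∏ p ∈ T \ S, X p ω) *
        ((∏ p ∈ S ∩ T, X p ω) * ∏ p ∈ S ∩ T, X p ω) := by rw [h3, mul_one]
    _ = _ := by ring

private theorem isUnit_I : IsUnit (⟨0, 1⟩ : GaussianInt) := by
  refine IsUnit.of_mul_eq_one ⟨0, -1⟩ ?_
  ext <;> simp

theorem exists_twist (hX : ∀ p ω, X p ω = 1 ∨ X p ω = -1) {f0 : GaussianInt → ℝ} (hf0 : IsBCM f0)
    (ω : Ω) : ∃ f : GaussianInt → ℝ, IsBCM f ∧
      ∀ p : P1, f (p : GaussianInt) = X p ω * f0 (p : GaussianInt) := by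
  classical
  refine ⟨fun n => XT X (OD n) ω * f0 n, ⟨?_, ?_, ?_⟩, ?_⟩
  · intro m n hm hn
    show XT X (OD (m * n)) ω * f0 (m * n) = XT X (OD m) ω * f0 m * (XT X (OD n) ω * f0 n)
    rw [OD_mul hm hn, XT_symm hX, hf0.mul m n hm hn]
    ring
  · obtain ⟨C, hC⟩ := hf0.bdd
    refine ⟨C, fun n hn => ?_⟩
    show |XT X (OD n) ω * f0 n| ≤ C
    rw [abs_mul]
    have h1 : |XT X (OD n) ω| = 1 := by
      rcases XT_pm hX (OD n) ω with h | h <;> rw [h] <;> norm_num
    rw [h1, one_mul]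
    exact hC n hn
  · show XT X (OD ⟨0, 1⟩) ω * f0 ⟨0, 1⟩ = 1
    rw [OD_unit isUnit_I, hf0.map_I]
    simp [XT]
  · intro p
    show XT X (OD (p : GaussianInt)) ω * f0 (p : GaussianInt) = X p ω * f0 (p : GaussianInt)
    rw [OD_P1]
    simp [XT]

theorem sign_eq (hX : ∀ p ω, X p ω = 1 ∨ X p ω = -1) {f : GaussianInt → ℝ} (hf : IsBCM f)
    (ω : Ω) (h : ∀ p : P1, f (p : GaussianInt) = X p ω * |f (p : GaussianInt)|) :
    ∀ n : GaussianInt, n ≠ 0 → f n = XT X (OD n) ω * |f n| := by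
  classical
  have hu : ∀ u : GaussianInt, IsUnit u → f u = XT X (OD u) ω * |f u| := by
    intro u hu
    rw [OD_unit hu, hf.map_unit hu]
    simp [XT]
  have hmul : ∀ a b : GaussianInt, a ≠ 0 → b ≠ 0 → f a = XT X (OD a) ω * |f a| →
      f b = XT X (OD b) ω * |f b| → f (a * b) = XT X (OD (a * b)) ω * |f (a * b)| := by
    intro a b ha hb h1 h2
    rw [OD_mul ha hb, XT_symm hX, hf.mul a b ha hb, abs_mul]
    calc f a * f b = (XT X (OD a) ω * |f a|) * (XT X (OD b) ω * |f b|) := by rw [← h1, ← h2]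
      _ = _ := by ring
  intro n
  induction n using UniqueFactorizationMonoid.induction_on_prime with
  | h₁ => intro h0; exact absurd rfl h0
  | h₂ u hunit => intro _; exact hu u hunit
  | h₃ a q ha hq ih =>
    intro _
    obtain ⟨p, hp⟩ := exists_P1 hq
    obtain ⟨u, hu'⟩ := hp
    have hp0 : (p : GaussianInt) ≠ 0 := p.2.1.ne_zero
    have hpp : f (p : GaussianInt) = XT X (OD (p : GaussianInt)) ω * |f (p : GaussianInt)| := by
      rw [OD_P1]
      simpa [XT] using h p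
    have hqq : f q = XT X (OD q) ω * |f q| := by
      rw [← hu']
      exact hmul _ _ hp0 u.isUnit.ne_zero hpp (hu _ u.isUnit)
    exact hmul q a hq.ne_zero ha hqq (ih ha)

theorem main (hX : Signs X μ)
    (hdiv : Tendsto (lsum (fun p => 1 - |∫ ω, X p ω ∂μ|)) atTop atTop)
    {f0 : GaussianInt → ℝ} (hf0 : IsBCM f0) :
    ∀ᵐ ω ∂μ, ∀ f : GaussianInt → ℝ, IsBCM f →
      (∀ p : P1, f (p : GaussianInt) = X p ω * f0 (p : GaussianInt)) →
      ShortAvg f sqr ∧ ∀ Φ : ℕ → Finset GaussianInt, IsDilatedFolner Φ → ShortAvg f Φ := by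
  classical
  obtain ⟨τ, hτ⟩ : ∃ τ : P1 → ℝ, τ = fun p : P1 => if 0 ≤ f0 (p : GaussianInt) then 1 else -1 :=
    ⟨_, rfl⟩
  have hτ1 : ∀ p, τ p = 1 ∨ τ p = -1 := by
    intro p
    rw [hτ]
    by_cases h : 0 ≤ f0 (p : GaussianInt)
    · left; simp [h]
    · right; simp [h]
  have hτf : ∀ p : P1, f0 (p : GaussianInt) = τ p * |f0 (p : GaussianInt)| := by
    intro p
    rw [hτ]
    by_cases h : 0 ≤ f0 (p : GaussianInt)
    · simp [h, abs_of_nonneg h]
    · simp [h, abs_of_neg (not_le.1 h)]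
  have hX' : Signs (fun p ω => τ p * X p ω) μ := by
    refine ⟨fun p => (hX.meas p).const_mul _, ?_, ?_⟩
    · have := hX.indep.comp (fun p x => τ p * x) (fun p => measurable_const_mul (τ p))
      exact this
    · intro p ω
      rcases hτ1 p with h | h <;> rcases hX.val p ω with h' | h' <;>
        simp [h, h']
  have hint : ∀ p, |∫ ω, τ p * X p ω ∂μ| = |∫ ω, X p ω ∂μ| := by
    intro p
    rw [integral_const_mul, abs_mul]
    rcases hτ1 p with h | h <;> rw [h] <;> norm_num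
  have hdiv' : Tendsto (lsum (fun p => 1 - |∫ ω, τ p * X p ω ∂μ|)) atTop atTop := by
    have e : (fun p => 1 - |∫ ω, τ p * X p ω ∂μ|) = fun p => 1 - |∫ ω, X p ω ∂μ| := by
      funext p
      rw [hint p]
    rw [e]
    exact hdiv
  filter_upwards [ae_noCorr hX' hdiv'] with ω hω f hf hfp
  have hsign : ∀ p : P1, f (p : GaussianInt) = τ p * X p ω * |f (p : GaussianInt)| := by
    intro p
    have h1 : |f (p : GaussianInt)| = |f0 (p : GaussianInt)| := by
      rw [hfp p, abs_mul]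
      rcases hX.val p ω with h | h <;> rw [h] <;> norm_num
    rw [h1]
    calc f (p : GaussianInt) = X p ω * f0 (p : GaussianInt) := hfp p
      _ = X p ω * (τ p * |f0 (p : GaussianInt)|) := by rw [← hτf p]
      _ = _ := by ring
  have hs := sign_eq hX'.val hf ω hsign
  have hdm : ∀ Φ : ℕ → Finset GaussianInt, IsDilatedFolner Φ → ShortAvg f Φ := fun Φ hΦ =>
    det_main (fun n => XT_pm hX'.val (OD n) ω) hω hf hs hΦ
  exact ⟨hdm sqr isDilatedFolner_sqr, hdm⟩

end Pool.Agent.RSG
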