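import Pool.Agent.RSG.Main
import Pool.Agent.RSG.DetChar

set_option autoImplicit false

/-!
# Module Main2: the strong form of the theorem on random signs
-/

open Filter Topology MeasureTheory ProbabilityTheory
open scoped symmDiff

namespace Pool.Agent.RSG

open Pool.Agent.GaussPret Pool.Agent.MRG

section Twist

variable {x : P1 → ℝ}

/-- the completely multiplicative sign function with the values `x p`. -/
noncomputable def sX (x : P1 → ℝ) (n : GaussianInt) : ℝ := ∏ p ∈ OD n, x p

theorem sX_val (hx : ∀ p, x p = 1 ∨ x p = -1) (n : GaussianInt) : sX x n = 1 ∨ sX x n = -1 := by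
  classical
  unfold sX
  induction (OD n) using Finset.induction_on with
  | empty => left; rw [Finset.prod_empty]
  | insert p T hp ih =>
    rw [Finset.prod_insert hp]
    rcases hx p with h | h <;> rcases ih with h' | h' <;> rw [h, h'] <;> norm_num

theorem sX_twist (hx : ∀ p, x p = 1 ∨ x p = -1) {f : GaussianInt → ℝ} (hf : IsBCM f) :
    IsBCM (fun n => sX x n * f n) := by
  classical
  refine ⟨?_, ?_, ?_⟩
  · intro m n hm hn
    show sX x (m * n) * f (m * n) = sX x m * f m * (sX x n * f n)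
    have h1 : sX x (m * n) = sX x m * sX x n := by
      unfold sX
      rw [OD_mul hm hn]
      have hd : Disjoint (OD m \ OD n) (OD n \ OD m) := disjoint_sdiff_sdiff
      have e : OD m ∆ OD n = (OD m \ OD n) ∪ (OD n \ OD m) := rfl
      have h1 : (∏ p ∈ OD m \ OD n, x p) * ∏ p ∈ OD m ∩ OD n, x p = ∏ p ∈ OD m, x p := by
        rw [mul_comm, Finset.prod_inter_mul_prod_sdiff]
      have h2 : (∏ p ∈ OD n \ OD m, x p) * ∏ p ∈ OD m ∩ OD n, x p = ∏ p ∈ OD n, x p := by
        rw [Finset.inter_comm, mul_comm, Finset.prod_inter_mul_prod_sdiff]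
      have h3 : (∏ p ∈ OD m ∩ OD n, x p) * ∏ p ∈ OD m ∩ OD n, x p = 1 := by
        rw [← Finset.prod_mul_distrib]
        refine Finset.prod_eq_one fun p _ => ?_
        rcases hx p with h | h <;> rw [h] <;> norm_num
      rw [e, Finset.prod_union hd, ← h1, ← h2]
      calc (∏ p ∈ OD m \ OD n, x p) * ∏ p ∈ OD n \ OD m, x p =
          (∏ p ∈ OD m \ OD n, x p) * (∏ p ∈ OD n \ OD m, x p) *
            ((∏ p ∈ OD m ∩ OD n, x p) * ∏ p ∈ OD m ∩ OD n, x p) := by rw [h3, mul_one]
        _ = _ := by ring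
    rw [h1, hf.mul m n hm hn]
    ring
  · obtain ⟨C, hC⟩ := hf.bdd
    refine ⟨C, fun n hn => ?_⟩
    show |sX x n * f n| ≤ C
    rw [abs_mul]
    have h1 : |sX x n| = 1 := by
      rcases sX_val hx n with h | h <;> rw [h] <;> norm_num
    rw [h1, one_mul]
    exact hC n hn
  · have hI : IsUnit (⟨0, 1⟩ : GaussianInt) := by
      refine IsUnit.of_mul_eq_one ⟨0, -1⟩ ?_
      ext <;> simp
    show sX x ⟨0, 1⟩ * f ⟨0, 1⟩ = 1
    unfold sX
    rw [OD_unit hI, hf.map_I]
    simp

theorem sX_P1 (x : P1 → ℝ) (p : P1) : sX x (p : GaussianInt) = x p := by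
  unfold sX
  rw [OD_P1]
  simp

/-- if the sign function with values `x p` has no correlations, every `f` close to it (up to a real
ray class character) satisfies Q1 and Q2. -/
theorem sX_main (hx : ∀ p, x p = 1 ∨ x p = -1) (hn : NoCorr (sX x)) {f χ : GaussianInt → ℝ} {m : ℕ}
    (hf : IsBCM f) (hm : 0 < m) (hχ : IsRayChar m χ)
    (hsum : Summable (fun p : P1 => (|f (p : GaussianInt)| -
      x p * χ (p : GaussianInt) * f (p : GaussianInt)) / nm (p : GaussianInt))) :
    ShortAvg f sqr ∧ ∀ Φ : ℕ → Finset GaussianInt, IsDilatedFolner Φ → ShortAvg f Φ := by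
  have key : ∀ Φ : ℕ → Finset GaussianInt, IsDilatedFolner Φ → ShortAvg f Φ := by
    intro Φ hΦ
    refine det_char (s := sX x) (sX_val hx) hn hf (sX_twist hx hf) hχ hm ?_ hΦ
    refine hsum.congr fun p => ?_
    rw [sX_P1]
    congr 2
    ring
  exact ⟨key sqr isDilatedFolner_sqr, key⟩

end Twist

variable {Ω : Type*} [MeasurableSpace Ω] {μ : Measure Ω} [IsProbabilityMeasure μ]
  {X : P1 → Ω → ℝ}

theorem main2 (hX : Signs X μ)
    (hdiv : Tendsto (lsum (fun p => 1 - |∫ ω, X p ω ∂μ|)) atTop atTop) :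
    ∀ᵐ ω ∂μ, ∀ (f χ : GaussianInt → ℝ) (m : ℕ), IsBCM f → 0 < m → IsRayChar m χ →
      Summable (fun p : P1 => (|f (p : GaussianInt)| -
        X p ω * χ (p : GaussianInt) * f (p : GaussianInt)) / nm (p : GaussianInt)) →
      ShortAvg f sqr ∧ ∀ Φ : ℕ → Finset GaussianInt, IsDilatedFolner Φ → ShortAvg f Φ := by
  filter_upwards [ae_noCorr hX hdiv] with ω hω f χ m hf hm hχ hsum
  exact sX_main (x := fun p => X p ω) (fun p => hX.val p ω) hω hf hm hχ hsum

end Pool.Agent.RSG
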