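import Pool.Agent.RSG.Defs

set_option autoImplicit false

/-!
# Module Odd: the primes with odd exponent

`OD n`: the primes of `P1` with odd exponent in `n` (empty for `n = 0`); finite since such a prime divides `n ≠ 0`, so its norm
is at most that of `n` (`finite_ball`).  `OD_mul`: `mult_mul` (GaussPret/Euler), an odd sum has exactly one odd term.
`WS S n`: the primes contained in an odd number of the sets `OD (n + h)`, `h ∈ S`.
`prod_WS`: `∏_h ∏_{p ∈ OD (n+h)} x_p = ∏_{p ∈ ⋃ OD (n+h)} x_p ^ #{h : p ∈ OD (n+h)}` and `x_p^2 = 1`.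
`mem_WS_of`: if `p ∣ n + h₁` and `p ∣ n + h` then `p ∣ h₁ - h`, so `nm p ≤ nm (h₁ - h)`; so `h₁` is the only `h` with
`p ∈ OD (n + h)`, and `p ∈ OD (n + h₁)` since the exponent of `p` in `n + h₁` is `1`.
-/

open Filter Topology MeasureTheory ProbabilityTheory
open scoped symmDiff

namespace Pool.Agent.RSG

open Pool.Agent.GaussPret Pool.Agent.MRG

theorem dvd_of_odd {n : GaussianInt} {p : P1} (h : Odd (multiplicity (p : GaussianInt) n)) :
    (p : GaussianInt) ∣ n := by
  by_contra hd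
  rw [multiplicity_eq_zero.2 hd] at h
  exact absurd h (by decide)

theorem nm_le_of_dvd {a b : GaussianInt} (hb : b ≠ 0) (h : a ∣ b) : nm a ≤ nm b := by
  obtain ⟨c, rfl⟩ := h
  have hc : c ≠ 0 := right_ne_zero_of_mul hb
  rw [nm_mul]
  have h1 := one_le_nm hc
  have h2 := nm_nonneg a
  nlinarith

theorem finite_odd (n : GaussianInt) :
    {p : P1 | n ≠ 0 ∧ Odd (multiplicity (p : GaussianInt) n)}.Finite := by
  by_cases hn : n = 0
  · have h0 : {p : P1 | n ≠ 0 ∧ Odd (multiplicity (p : GaussianInt) n)} = ∅ := by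
      ext p
      simp [hn]
    rw [h0]
    exact Set.finite_empty
  · have h1 : (Subtype.val ⁻¹' {m : GaussianInt |
        ‖GaussianInt.toComplex m‖ ≤ ‖GaussianInt.toComplex n‖} : Set P1).Finite :=
      (finite_ball _).preimage Subtype.val_injective.injOn
    refine h1.subset ?_
    rintro p ⟨_, hp⟩
    have hd : (p : GaussianInt) ∣ n := dvd_of_odd hp
    have h2 := nm_le_of_dvd hn hd
    rw [nm_eq, nm_eq] at h2
    exact abs_le_of_sq_le_sq' h2 (norm_nonneg _) |>.2

/-- the primes with odd exponent in `n`; empty for `n = 0`. -/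
noncomputable def OD (n : GaussianInt) : Finset P1 := (finite_odd n).toFinset

theorem mem_OD {n : GaussianInt} {p : P1} :
    p ∈ OD n ↔ n ≠ 0 ∧ Odd (multiplicity (p : GaussianInt) n) := by
  simp [OD]

theorem OD_zero : OD 0 = ∅ := by
  ext p
  simp [mem_OD]

open scoped Classical in
theorem OD_mul {m n : GaussianInt} (hm : m ≠ 0) (hn : n ≠ 0) : OD (m * n) = OD m ∆ OD n := by
  ext p
  rw [Finset.mem_symmDiff, mem_OD, mem_OD, mem_OD, mult_mul p hm hn, Nat.odd_add,
    ← Nat.not_odd_iff_even]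
  have hmn := mul_ne_zero hm hn
  tauto

theorem OD_unit {u : GaussianInt} (hu : IsUnit u) : OD u = ∅ := by
  ext p
  rw [mem_OD, multiplicity_eq_zero.2 (fun h => (P1_prime p).not_isUnit (isUnit_of_dvd_unit h hu))]
  simp

theorem OD_P1 (p : P1) : OD (p : GaussianInt) = {p} := by
  classical
  ext q
  rw [mem_OD, mult_prime q p, Finset.mem_singleton]
  constructor
  · rintro ⟨_, h⟩
    by_contra hq
    rw [if_neg hq] at h
    exact absurd h (by decide)
  · intro h
    rw [if_pos h]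
    exact ⟨P1_ne_zero p, odd_one⟩

theorem dvd_of_mem_OD {n : GaussianInt} {p : P1} (h : p ∈ OD n) :
    n ≠ 0 ∧ (p : GaussianInt) ∣ n := by
  rw [mem_OD] at h
  exact ⟨h.1, dvd_of_odd h.2⟩

theorem mem_OD_of_dvd {n : GaussianInt} {p : P1} (hn : n ≠ 0) (h1 : (p : GaussianInt) ∣ n)
    (h2 : ¬ (p : GaussianInt) ^ 2 ∣ n) : p ∈ OD n := by
  rw [mem_OD]
  refine ⟨hn, ?_⟩
  have h3 : multiplicity (p : GaussianInt) n = 1 := by
    apply multiplicity_eq_of_dvd_of_not_dvd
    · rw [pow_one]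
      exact h1
    · exact h2
  rw [h3]
  exact odd_one

open scoped Classical in
/-- the primes contained in an odd number of the sets `OD (n + h)`, `h ∈ S`. -/
noncomputable def WS (S : Finset GaussianInt) (n : GaussianInt) : Finset P1 :=
  (S.biUnion (fun h => OD (n + h))).filter
    (fun p => Odd (S.filter (fun h => p ∈ OD (n + h))).card)

theorem pow_sign {a : ℝ} (ha : a = 1 ∨ a = -1) (k : ℕ) : a ^ k = if Odd k then a else 1 := by
  rcases ha with h | h
  · rw [h, one_pow]
    split_ifs <;> rfl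
  · rw [h]
    split_ifs with hk
    · exact hk.neg_one_pow
    · exact (Nat.not_odd_iff_even.1 hk).neg_one_pow

theorem prod_WS {x : P1 → ℝ} (hx : ∀ p, x p = 1 ∨ x p = -1) (S : Finset GaussianInt)
    (n : GaussianInt) : ∏ h ∈ S, ∏ p ∈ OD (n + h), x p = ∏ p ∈ WS S n, x p := by
  classical
  have h1 : ∀ h ∈ S, ∏ p ∈ OD (n + h), x p
      = ∏ p ∈ S.biUnion (fun h => OD (n + h)), if p ∈ OD (n + h) then x p else 1 := by
    intro h hh
    rw [Finset.prod_ite_mem, Finset.inter_eq_right.2]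
    exact Finset.subset_biUnion_of_mem (fun h => OD (n + h)) hh
  rw [Finset.prod_congr rfl h1, Finset.prod_comm, WS, Finset.prod_filter]
  apply Finset.prod_congr
  · ext p
    simp
  · intro p _
    rw [← Finset.prod_filter, Finset.prod_const, pow_sign (hx p)]

theorem exists_of_mem_WS {S : Finset GaussianInt} {n : GaussianInt} {p : P1} (hp : p ∈ WS S n) :
    ∃ h ∈ S, n + h ≠ 0 ∧ (p : GaussianInt) ∣ n + h := by
  classical
  rw [WS, Finset.mem_filter, Finset.mem_biUnion] at hp
  obtain ⟨⟨h, hh, hp⟩, _⟩ := hp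
  exact ⟨h, hh, dvd_of_mem_OD hp⟩

theorem mem_WS_of {S : Finset GaussianInt} {n h₁ : GaussianInt} {p : P1} (hh : h₁ ∈ S)
    (hn : n + h₁ ≠ 0) (h1 : (p : GaussianInt) ∣ n + h₁) (h2 : ¬ (p : GaussianInt) ^ 2 ∣ n + h₁)
    (h3 : ∀ h ∈ S, h ≠ h₁ → nm (h₁ - h) < nm (p : GaussianInt)) : p ∈ WS S n := by
  classical
  have h4 : p ∈ OD (n + h₁) := mem_OD_of_dvd hn h1 h2
  rw [WS, Finset.mem_filter, Finset.mem_biUnion]
  refine ⟨⟨h₁, hh, h4⟩, ?_⟩
  have h5 : S.filter (fun h => p ∈ OD (n + h)) = {h₁} := by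
    ext h
    rw [Finset.mem_filter, Finset.mem_singleton]
    constructor
    · rintro ⟨hS, hp⟩
      by_contra hne
      have h6 : (p : GaussianInt) ∣ h₁ - h := by
        have h7 := dvd_sub h1 (dvd_of_mem_OD hp).2
        rwa [add_sub_add_left_eq_sub] at h7
      have h8 := nm_le_of_dvd (sub_ne_zero.2 (Ne.symm hne)) h6
      exact absurd (h3 h hS hne) (not_lt.2 h8)
    · rintro rfl
      exact ⟨hh, h4⟩
  have h9 : (S.filter (fun h => p ∈ OD (n + h))).card = 1 := by
    rw [h5, Finset.card_singleton]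
  convert odd_one using 1

end Pool.Agent.RSG
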