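import Pool.Agent.RSG.Bdry

set_option autoImplicit false

/-!
# Module Vdc: from discs to all Jordan sets, with periodic weights

`second`: `∑_{n ∈ ball r} (∑_{j<R} gS s S (n + Q j))^2 = ∑_{j,j'} ∑_n gS s S (n+Qj) gS s S (n+Qj')`; for `j = j'` each term is `1`
(`≤ 9 r^2`), for `j ≠ j'` the product is `gS s ((S + Qj) Δ (S + Qj')) n` (`s^2 = 1`) with a nonempty set, so the sum is `o(r^2)`.
`noCorr_per`: let `B` bound `|c|`.  For every `R ≥ 1`, up to `ε κ^2` (`shift_sum` for `q = Q j`, `j < R`)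
`∑_{n ∈ pts} c n gS s S n = (1/R) ∑_{j<R} ∑_{n ∈ pts} c (n + Qj) gS s S (n + Qj) = ∑_{n ∈ pts} c n (1/R) ∑_j gS s S (n + Q j)`,
at most `B ∑_{n ∈ ball (ρ κ)} |(1/R) ∑_j gS ..| + B ≤ B (9 (ρκ)^2)^(1/2) (second)^(1/2) + B`, so
`limsup |avg| ≤ B C/√R`.  (`Φ N` and `pts hU (k N) 0` differ at most in `0`: `sum_close`; `card_lower` for the denominator.)
-/

open Filter Topology MeasureTheory ProbabilityTheory
open scoped symmDiff

namespace Pool.Agent.RSG

open Pool.Agent.GaussPret Pool.Agent.MRG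

theorem gS_mul {s : GaussianInt → ℝ} (hs : ∀ n, s n = 1 ∨ s n = -1) (S T : Finset GaussianInt)
    (n : GaussianInt) : gS s S n * gS s T n = gS s (S ∆ T) n := by
  have hsq : ∀ m, s m * s m = 1 := by
    intro m
    rcases hs m with h | h <;> rw [h] <;> norm_num
  unfold gS
  have e1 : S ∆ T = (S \ T) ∪ (T \ S) := rfl
  rw [e1, Finset.prod_union (disjoint_sdiff_sdiff), ← Finset.prod_inter_mul_prod_sdiff S T,
    ← Finset.prod_inter_mul_prod_sdiff T S, Finset.inter_comm T S]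
  have e2 : (∏ h ∈ S ∩ T, s (n + h)) * (∏ h ∈ S ∩ T, s (n + h)) = 1 := by
    rw [← Finset.prod_mul_distrib]
    exact Finset.prod_eq_one fun h _ => hsq _
  calc (∏ h ∈ S ∩ T, s (n + h)) * (∏ h ∈ S \ T, s (n + h)) *
      ((∏ h ∈ S ∩ T, s (n + h)) * ∏ h ∈ T \ S, s (n + h)) =
      ((∏ h ∈ S ∩ T, s (n + h)) * (∏ h ∈ S ∩ T, s (n + h))) *
      ((∏ h ∈ S \ T, s (n + h)) * ∏ h ∈ T \ S, s (n + h)) := by ring
    _ = _ := by rw [e2, one_mul]

theorem gS_shift (s : GaussianInt → ℝ) (S : Finset GaussianInt) (n q : GaussianInt) :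
    gS s S (n + q) = gS s (S.image (fun h => q + h)) n := by
  unfold gS
  rw [Finset.prod_image (fun a _ b _ h => add_left_cancel h)]
  refine Finset.prod_congr rfl fun h _ => ?_
  rw [add_assoc]

theorem image_ne {S : Finset GaussianInt} (hS : S.Nonempty) {q q' : GaussianInt} (h : q ≠ q') :
    S.image (fun h => q + h) ≠ S.image (fun h => q' + h) := by
  intro he
  have h1 : ∑ x ∈ S.image (fun h => q + h), x = ∑ x ∈ S.image (fun h => q' + h), x := by rw [he]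
  rw [Finset.sum_image (fun a _ b _ h => add_left_cancel h),
    Finset.sum_image (fun a _ b _ h => add_left_cancel h), Finset.sum_add_distrib,
    Finset.sum_add_distrib, add_left_inj, Finset.sum_const, Finset.sum_const, nsmul_eq_mul,
    nsmul_eq_mul] at h1
  have h2 : ((S.card : ℕ) : GaussianInt) ≠ 0 := by
    have h3 : S.card ≠ 0 := (Finset.card_pos.2 hS).ne'
    exact_mod_cast h3
  exact h (mul_left_cancel₀ h2 h1)

private theorem gS_abs {s : GaussianInt → ℝ} (hs : ∀ n, s n = 1 ∨ s n = -1)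
    (S : Finset GaussianInt) (n : GaussianInt) : |gS s S n| = 1 := by
  unfold gS
  rw [Finset.abs_prod]
  refine Finset.prod_eq_one fun h _ => ?_
  rcases hs (n + h) with e | e <;> rw [e] <;> norm_num

theorem second {s : GaussianInt → ℝ} (hs : ∀ n, s n = 1 ∨ s n = -1) (h : NoCorr s)
    {S : Finset GaussianInt} (hS : S.Nonempty) (Q : ℕ) [NeZero Q] (R : ℕ) :
    ∀ᶠ r : ℝ in atTop,
      ∑ n ∈ ball r, (∑ j ∈ Finset.range R, gS s S (n + ((Q * j : ℕ) : GaussianInt))) ^ 2 ≤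
        (9 * R + 1) * r ^ 2 := by
  classical
  set T : ℕ → ℕ → Finset GaussianInt := fun j j' =>
    (S.image (fun h => ((Q * j : ℕ) : GaussianInt) + h)) ∆
      (S.image (fun h => ((Q * j' : ℕ) : GaussianInt) + h)) with hT
  have hTne : ∀ j j', j ≠ j' → (T j j').Nonempty := by
    intro j j' hjj
    rw [Finset.nonempty_iff_ne_empty]
    intro h0
    have h1 : ((Q * j : ℕ) : GaussianInt) ≠ ((Q * j' : ℕ) : GaussianInt) := by
      intro h2
      have h3 : Q * j = Q * j' := by exact_mod_cast h2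
      exact hjj (Nat.eq_of_mul_eq_mul_left (NeZero.pos Q) h3)
    apply image_ne hS h1
    rw [hT] at h0
    exact symmDiff_eq_bot.1 h0
  have hprod : ∀ n j j', gS s S (n + ((Q * j : ℕ) : GaussianInt)) *
      gS s S (n + ((Q * j' : ℕ) : GaussianInt)) = gS s (T j j') n := by
    intro n j j'
    rw [gS_shift, gS_shift, gS_mul hs]
  have hlim : Tendsto (fun r : ℝ => ∑ x ∈ (Finset.range R).offDiag,
      (∑ n ∈ ball r, gS s (T x.1 x.2) n) / r ^ 2) atTop (𝓝 0) := by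
    have h1 : Tendsto (fun r : ℝ => ∑ x ∈ (Finset.range R).offDiag,
        (∑ n ∈ ball r, gS s (T x.1 x.2) n) / r ^ 2) atTop
        (𝓝 (∑ x ∈ (Finset.range R).offDiag, (0 : ℝ))) := by
      refine tendsto_finsetSum _ fun x hx => ?_
      rw [Finset.mem_offDiag] at hx
      exact h _ (hTne _ _ hx.2.2)
    rwa [Finset.sum_const_zero] at h1
  filter_upwards [hlim.eventually_lt_const (show (0 : ℝ) < 1 by norm_num),
    eventually_gt_atTop (0 : ℝ)] with r h1 hr
  have hr2 : 0 < r ^ 2 := by positivity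
  rw [← Finset.sum_div, div_lt_one hr2] at h1
  have e1 : ∀ n, (∑ j ∈ Finset.range R, gS s S (n + ((Q * j : ℕ) : GaussianInt))) ^ 2 =
      ∑ x ∈ (Finset.range R) ×ˢ (Finset.range R), gS s (T x.1 x.2) n := by
    intro n
    rw [sq, Finset.sum_mul_sum, Finset.sum_product]
    refine Finset.sum_congr rfl fun j _ => Finset.sum_congr rfl fun j' _ => hprod n j j'
  have e2 : ∑ n ∈ ball r, (∑ j ∈ Finset.range R, gS s S (n + ((Q * j : ℕ) : GaussianInt))) ^ 2 =
      ∑ x ∈ (Finset.range R).diag, (∑ n ∈ ball r, gS s (T x.1 x.2) n) +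
        ∑ x ∈ (Finset.range R).offDiag, (∑ n ∈ ball r, gS s (T x.1 x.2) n) := by
    rw [← Finset.sum_union (Finset.disjoint_diag_offDiag _), Finset.diag_union_offDiag,
      Finset.sum_comm]
    exact Finset.sum_congr rfl fun n _ => e1 n
  rw [e2]
  have e3 : ∑ x ∈ (Finset.range R).diag, (∑ n ∈ ball r, gS s (T x.1 x.2) n) ≤
      R * (9 * r ^ 2) := by
    have h2 : ∀ x ∈ (Finset.range R).diag, (∑ n ∈ ball r, gS s (T x.1 x.2) n) ≤ 9 * r ^ 2 := by
      intro x hx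
      refine le_trans ?_ (card_ball_le r)
      rw [Finset.card_eq_sum_ones]
      push_cast
      refine Finset.sum_le_sum fun n _ => ?_
      exact (le_abs_self _).trans (gS_abs hs _ _).le
    refine (Finset.sum_le_card_nsmul _ _ _ h2).trans ?_
    rw [Finset.diag_card, Finset.card_range, nsmul_eq_mul]
  linarith

theorem noCorr_per {s : GaussianInt → ℝ} (hs : ∀ n, s n = 1 ∨ s n = -1) (h : NoCorr s)
    {Q : ℕ} [NeZero Q] {c : GaussianInt → ℝ} (hc : Per Q c) {S : Finset GaussianInt}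
    (hS : S.Nonempty) {Φ : ℕ → Finset GaussianInt} (hΦ : IsDilatedFolner Φ) :
    Tendsto (fun N => avg (Φ N) (fun n => c n * gS s S n)) atTop (𝓝 0) := by
  classical
  obtain ⟨U, k, hU, hF, hV, hk, hkt, hΦ'⟩ := hΦ
  have hVr : 0 < (volume U).toReal := ENNReal.toReal_pos hV.ne' hU.measure_lt_top.ne
  set V := (volume U).toReal with hVdef
  obtain ⟨B, hB0, hB⟩ := hc.bdd
  obtain ⟨ρ₀, hρ₀⟩ := hU.exists_norm_le
  set ρ : ℝ := max ρ₀ 1 with hρdef
  have hρ1 : 1 ≤ ρ := le_max_right _ _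
  have hρU : ∀ u ∈ U, ‖u‖ ≤ ρ := fun u hu => (hρ₀ u hu).trans (le_max_left _ _)
  set F : GaussianInt → ℝ := fun n => c n * gS s S n with hFdef
  have hFB : ∀ n, |F n| ≤ B := by
    intro n
    rw [hFdef]
    simp only
    rw [abs_mul, gS_abs hs, mul_one]
    exact hB n
  rw [Metric.tendsto_atTop']
  intro ε hε
  -- the parameter `m`
  obtain ⟨m, hm⟩ := exists_nat_gt (80 * B * ρ ^ 2 / (ε * V))
  have hm0 : (0 : ℝ) < m := lt_of_le_of_lt (by positivity) hm
  have hm0' : 0 < m := by exact_mod_cast hm0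
  have hm1 : (1 : ℝ) ≤ m := by exact_mod_cast hm0'
  set R : ℕ := m ^ 2 with hR
  have hR0 : (0 : ℝ) < R := by rw [hR]; push_cast; positivity
  have hRm : (R : ℝ) = (m : ℝ) ^ 2 := by rw [hR]; push_cast; rfl
  -- shifts
  have hsh : ∀ j : ℕ, ∃ κ₀ : ℝ, 0 < κ₀ ∧ ∀ κ : ℝ, κ₀ ≤ κ → ∀ F : GaussianInt → ℝ,
      (∀ n, |F n| ≤ B) → |∑ n ∈ pts hU κ 0, F (n + ((Q * j : ℕ) : GaussianInt)) -
        ∑ n ∈ pts hU κ 0, F n| ≤ (ε * V / 8) * κ ^ 2 :=
    fun j => shift_sum hU hF _ hB0 (ε * V / 8) (by positivity)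
  choose κ₀ hκ₀ hsh using hsh
  have hev : ∀ᶠ κ : ℝ in atTop, ∀ j ∈ Finset.range R, κ₀ j ≤ κ := by
    rw [Filter.eventually_all_finset]
    exact fun j _ => eventually_ge_atTop _
  have hsec := second hs h hS Q R
  have hρt : Tendsto (fun κ : ℝ => ρ * κ) atTop atTop :=
    Tendsto.const_mul_atTop (by linarith) tendsto_id
  have hall := (hev.and ((hρt.eventually hsec).and ((eventually_ge_atTop (1 : ℝ)).and
    (eventually_ge_atTop (16 * B / (ε * V) + 1)))))
  have hall' := (hkt.eventually hall).and (card_lower hU hF hV hkt hΦ')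
  rw [Filter.eventually_atTop] at hall'
  obtain ⟨N₀, hN₀⟩ := hall'
  refine ⟨N₀, fun N hN => ?_⟩
  obtain ⟨⟨g1, g2, g3, g4⟩, g5⟩ := hN₀ N hN.le
  set κ := k N with hκ
  rw [Real.dist_eq, sub_zero]
  -- Step A
  have sA : |(R : ℝ) * ∑ n ∈ pts hU κ 0, F n -
      ∑ j ∈ Finset.range R, ∑ n ∈ pts hU κ 0, F (n + ((Q * j : ℕ) : GaussianInt))| ≤
      R * ((ε * V / 8) * κ ^ 2) := by
    have e1 : (R : ℝ) * ∑ n ∈ pts hU κ 0, F n -
        ∑ j ∈ Finset.range R, ∑ n ∈ pts hU κ 0, F (n + ((Q * j : ℕ) : GaussianInt)) =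
        ∑ j ∈ Finset.range R, (∑ n ∈ pts hU κ 0, F n -
          ∑ n ∈ pts hU κ 0, F (n + ((Q * j : ℕ) : GaussianInt))) := by
      rw [Finset.sum_sub_distrib, Finset.sum_const, Finset.card_range, nsmul_eq_mul]
    rw [e1]
    refine (Finset.abs_sum_le_sum_abs _ _).trans ?_
    have e2 : ∀ j ∈ Finset.range R, |∑ n ∈ pts hU κ 0, F n -
        ∑ n ∈ pts hU κ 0, F (n + ((Q * j : ℕ) : GaussianInt))| ≤ (ε * V / 8) * κ ^ 2 := by
      intro j hj
      rw [abs_sub_comm]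
      exact hsh j κ (g1 j hj) F hFB
    refine (Finset.sum_le_card_nsmul _ _ _ e2).trans ?_
    rw [Finset.card_range, nsmul_eq_mul]
  -- Step B
  set G : GaussianInt → ℝ := fun n =>
    ∑ j ∈ Finset.range R, gS s S (n + ((Q * j : ℕ) : GaussianInt)) with hG
  have sB : |∑ j ∈ Finset.range R, ∑ n ∈ pts hU κ 0, F (n + ((Q * j : ℕ) : GaussianInt))| ≤
      B * ∑ n ∈ pts hU κ 0, |G n| := by
    have e1 : ∑ j ∈ Finset.range R, ∑ n ∈ pts hU κ 0, F (n + ((Q * j : ℕ) : GaussianInt)) =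
        ∑ n ∈ pts hU κ 0, c n * G n := by
      rw [Finset.sum_comm]
      refine Finset.sum_congr rfl fun n _ => ?_
      rw [hG]
      simp only
      rw [Finset.mul_sum]
      refine Finset.sum_congr rfl fun j _ => ?_
      rw [hFdef]
      simp only
      have e2 : c (n + ((Q * j : ℕ) : GaussianInt)) = c n := by
        have e3 := hc n (j : GaussianInt)
        rw [← e3]
        push_cast
        rfl
      rw [e2]
    rw [e1, Finset.mul_sum]
    refine (Finset.abs_sum_le_sum_abs _ _).trans (Finset.sum_le_sum fun n _ => ?_)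
    rw [abs_mul]
    exact mul_le_mul_of_nonneg_right (hB n) (abs_nonneg _)
  -- Step C
  have hGR : ∀ n, |G n| ≤ R := by
    intro n
    rw [hG]
    simp only
    refine (Finset.abs_sum_le_sum_abs _ _).trans ?_
    rw [Finset.sum_congr rfl fun j _ => gS_abs hs S (n + ((Q * j : ℕ) : GaussianInt)),
      Finset.sum_const, Finset.card_range, nsmul_eq_mul, mul_one]
  have sC : ∑ n ∈ pts hU κ 0, |G n| ≤ 10 * m * (ρ * κ) ^ 2 + R := by
    have e1 : ∑ n ∈ pts hU κ 0, |G n| ≤ ∑ n ∈ ball (ρ * κ), |G n| + |G 0| := by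
      have e2 : pts hU κ 0 ⊆ insert 0 (ball (ρ * κ)) := by
        intro n hn
        rw [Finset.mem_insert]
        by_cases hn0 : n = 0
        · exact Or.inl hn0
        · right
          rw [mem_ball]
          refine ⟨hn0, ?_⟩
          obtain ⟨u, hu, hnu⟩ := (mem_pts hU).1 hn
          rw [hnu, add_zero, norm_mul, Complex.norm_real, Real.norm_eq_abs,
            abs_of_pos (by linarith : (0 : ℝ) < κ), mul_comm]
          exact mul_le_mul_of_nonneg_right (hρU u hu) (by linarith)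
      have e3 : (0 : GaussianInt) ∉ ball (ρ * κ) := by
        rw [mem_ball]
        exact fun h0 => h0.1 rfl
      refine (Finset.sum_le_sum_of_subset_of_nonneg e2 fun n _ _ => abs_nonneg _).trans ?_
      rw [Finset.sum_insert e3, add_comm]
    have e4 : ∑ n ∈ ball (ρ * κ), |G n| ≤ 10 * m * (ρ * κ) ^ 2 := by
      have e5 : ∀ n ∈ ball (ρ * κ), |G n| ≤ m / 2 + G n ^ 2 / (2 * m) := by
        intro n _
        have e6 : m / 2 + G n ^ 2 / (2 * m) - |G n| = (m - |G n|) ^ 2 / (2 * m) := by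
          rw [← sq_abs (G n)]
          field_simp
          ring
        have e7 : 0 ≤ (m - |G n|) ^ 2 / (2 * m) := by positivity
        linarith
      refine (Finset.sum_le_sum e5).trans ?_
      rw [Finset.sum_add_distrib, Finset.sum_const, nsmul_eq_mul, ← Finset.sum_div]
      have e8 := card_ball_le (ρ * κ)
      have e9 : (∑ n ∈ ball (ρ * κ), G n ^ 2) ≤ (9 * R + 1) * (ρ * κ) ^ 2 := g2
      have e10 : (∑ n ∈ ball (ρ * κ), G n ^ 2) / (2 * m) ≤ (9 * R + 1) * (ρ * κ) ^ 2 / (2 * m) := by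
        gcongr
      have e11 : (9 * (R : ℝ) + 1) * (ρ * κ) ^ 2 / (2 * m) ≤ 5 * m * (ρ * κ) ^ 2 := by
        rw [div_le_iff₀ (by positivity), hRm]
        have e12 : 0 ≤ (ρ * κ) ^ 2 := by positivity
        nlinarith [mul_nonneg e12 (by nlinarith : (0 : ℝ) ≤ (m : ℝ) ^ 2 - 1)]
      have e13 : ((ball (ρ * κ)).card : ℝ) * (m / 2) ≤ 9 * (ρ * κ) ^ 2 * (m / 2) :=
        mul_le_mul_of_nonneg_right e8 (by positivity)
      nlinarith [mul_nonneg hm0.le (sq_nonneg (ρ * κ))]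
    have e14 := hGR 0
    linarith
  -- Step D
  have sD : |∑ n ∈ pts hU κ 0, F n| ≤ (ε * V / 8) * κ ^ 2 + 10 * B * ρ ^ 2 * κ ^ 2 / m + B := by
    have e1 : (R : ℝ) * |∑ n ∈ pts hU κ 0, F n| ≤
        R * ((ε * V / 8) * κ ^ 2) + B * (10 * m * (ρ * κ) ^ 2 + R) := by
      have e2 : |(R : ℝ) * ∑ n ∈ pts hU κ 0, F n| = R * |∑ n ∈ pts hU κ 0, F n| := by
        rw [abs_mul, abs_of_pos hR0]
      rw [← e2]
      have e3 := abs_sub_abs_le_abs_sub ((R : ℝ) * ∑ n ∈ pts hU κ 0, F n)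
        (∑ j ∈ Finset.range R, ∑ n ∈ pts hU κ 0, F (n + ((Q * j : ℕ) : GaussianInt)))
      have e4 : B * ∑ n ∈ pts hU κ 0, |G n| ≤ B * (10 * m * (ρ * κ) ^ 2 + R) :=
        mul_le_mul_of_nonneg_left sC hB0
      linarith
    have e5 : R * ((ε * V / 8) * κ ^ 2) + B * (10 * m * (ρ * κ) ^ 2 + R) =
        R * ((ε * V / 8) * κ ^ 2 + 10 * B * ρ ^ 2 * κ ^ 2 / m + B) := by
      rw [hRm]
      field_simp
      ring
    rw [e5] at e1
    exact le_of_mul_le_mul_left e1 hR0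
  -- Step E
  have sE : |∑ n ∈ Φ N, F n - ∑ n ∈ pts hU κ 0, F n| ≤ B := by
    refine (sum_close (Φ N) (pts hU κ 0) F ?_).trans (hFB 0)
    intro n hn
    rw [hΦ' N n hn, mem_pts]
    simp only [add_zero]
    rfl
  -- Step F
  have hκ0 : 0 < κ := by linarith
  have hc0 : (0 : ℝ) < (Φ N).card := lt_of_lt_of_le (by positivity) g5
  show |(∑ n ∈ Φ N, F n) / ((Φ N).card : ℝ)| < ε
  rw [abs_div, abs_of_pos hc0, div_lt_iff₀ hc0]
  have f1 : |∑ n ∈ Φ N, F n| ≤ (ε * V / 8) * κ ^ 2 + 10 * B * ρ ^ 2 * κ ^ 2 / m + 2 * B := by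
    have e1 := abs_sub_abs_le_abs_sub (∑ n ∈ Φ N, F n) (∑ n ∈ pts hU κ 0, F n)
    linarith
  have f2 : ε * (κ ^ 2 * (V / 2)) ≤ ε * ((Φ N).card : ℝ) := mul_le_mul_of_nonneg_left g5 hε.le
  have f3 : 10 * B * ρ ^ 2 * κ ^ 2 / m ≤ (ε * V / 8) * κ ^ 2 := by
    rw [div_le_iff₀ hm0]
    rw [div_lt_iff₀ (by positivity)] at hm
    have : 0 ≤ κ ^ 2 := by positivity
    nlinarith
  have f4 : 2 * B < (ε * V / 4) * κ ^ 2 := by
    have e1 : 16 * B / (ε * V) < κ := by linarith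
    rw [div_lt_iff₀ (by positivity)] at e1
    have e2 : κ ≤ κ ^ 2 := by nlinarith
    have e3 : 0 < ε * V := by positivity
    nlinarith
  have f5 : ε * (κ ^ 2 * (V / 2)) = (ε * V / 8) * κ ^ 2 + (ε * V / 8) * κ ^ 2 +
      (ε * V / 4) * κ ^ 2 := by ring
  linarith

end Pool.Agent.RSG
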